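import Mathlib
import Pool.Agent.Y137.SF.Defs
import Pool.Agent.W495.FM.HomDefs
import Pool.Agent.W495.FM.SpreadDefs
import Pool.Agent.TH117.GN.WtDefs

/-!
# Small blocks of factors of abelian varieties over finite fields, and the schemes generated by abelian
# varieties: definitions
-/

set_option autoImplicit false

namespace Pool.Agent.V5helper90.TB

open NumberField Module Pool.Agent.W495.TA Pool.Agent.W495.FM Pool.Agent.TH117.GN Pool.Agent.Y137.SF

variable {p : ℕ} [Fact p.Prime] {ν : PadicAlgCl p ≃+* ℂ}

/-- The factor `i` of `Z` is supersingular: a power of its Frobenius endomorphism is a power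
of `p`. -/
def IsSupersingular (Z : RedAV p ν) (i : Z.X.I) : Prop :=
  ∃ s : ℕ, 0 < s ∧ (Z.π i) ^ (2 * s) = ((p : (Z.X.factor i).E) ^ Z.a) ^ s

open Classical in
/-- The block `S` of factors is small:

* all factors in `S` have dimension at most three, and two different factors of dimension three in `S`
  whose CM fields have the same Galois closure have Galois CM fields; or
* the sum of the dimensions of the factors in `S` is at most five, and they are not an elliptic curve
  and a factor of dimension four. -/
def IsSmallBlock (Z : RedAV p ν) (S : Set Z.X.I) : Prop :=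
  ((∀ i ∈ S, finrank ℚ (Z.X.factor i).E ≤ 6) ∧
    ∀ i ∈ S, ∀ k ∈ S, i ≠ k → finrank ℚ (Z.X.factor i).E = 6 → finrank ℚ (Z.X.factor k).E = 6 →
      IntermediateField.normalClosure ℚ (Z.X.factor i).E ℂ =
        IntermediateField.normalClosure ℚ (Z.X.factor k).E ℂ → IsGalois ℚ (Z.X.factor i).E) ∨
  ((∑ i, if i ∈ S then finrank ℚ (Z.X.factor i).E else 0) ≤ 10 ∧
    ∀ i ∈ S, ∀ k ∈ S, ¬ (finrank ℚ (Z.X.factor i).E = 2 ∧ finrank ℚ (Z.X.factor k).E = 8))

/-- `Y` is, over an algebraic closure of the finite field, isogenous to a product of powers of factors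
of `Z` and of a supersingular abelian variety. -/
def IsPowersOf (Z Y : RedAV p ν) : Prop :=
  ∀ i : Y.X.I, IsSupersingular Y i ∨
    ∃ (k : Z.X.I) (ι : (Z.X.factor k).E →+* (Y.X.factor i).E) (s t : ℕ), 0 < s ∧ 0 < t ∧
      Y.a * s = Z.a * t ∧ (Y.π i) ^ s = ι ((Z.π k) ^ t)

/-- The properties of the theory of cycles modulo rational equivalence on an abelian variety over a
finite field: the operation of the Frobenius, Poincaré duality, the formal properties of
correspondences, the nilpotence of homologically trivial correspondences (Kimura), and the Tate classes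
over the ground field which belong to the system `AlgS` are linear combinations of classes of cycles
(theorems of Tate, Markman and Ramón Marí). -/
structure IsChowS {Ω : Type} [Field Ω] [CharZero Ω] {Y : RedAV p ν} (C : Cycles Ω Y) : Prop
    extends HasFrobenius C, HasDuality C, HasProducts C where
  nilpotent : ∀ c, (∀ n f, C.actH n c f = 0) → IsNilpotent c
  algebraic : ∀ (j : ℕ) (f : Coh Ω Y (2 * j)), AlgS Ω {4, 6} Y (Fin (2 * j)) f → IsTate j f →
    f ∈ Submodule.span Ω (Set.range (C.cl j))

/-- The groups of motivic and of `ℓ`-adic homology of `X` are those of an abelian variety `Y` with the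
property `P`. -/
def IsAbelianOf {Ω V : Type} [Field Ω] [CharZero Ω] (P : RedAV p ν → Prop) (T : Homology Ω V)
    (X : V) : Prop :=
  ∃ (Y : RedAV p ν) (C : Cycles Ω Y) (D : Motivic C) (g : ℕ), P Y ∧ IsChowS C ∧ IsMotivic D ∧
    IsAbelian T X D g

/-- The consequences for schemes:

* `TB (X)` for all schemes `X` in the class `𝒢` generated by the abelian varieties with the property
  `P` (`Generated`);
* if `Z` is any closed subscheme, of dimension at most `d`, of a scheme `X` in `𝒢`, then the regulators
  of the complement `U` with all twists `j ≥ d` are isomorphisms with the spaces of invariants, with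
  semisimple eigenvalue one;
* for all schemes which are obtained from those in `𝒢` by open subschemes, images under proper
  morphisms, unions of a closed and an open part, and summands of motives (`Spread`), the cycle class
  maps in all dimensions are surjective onto the Frobenius invariants, with semisimple eigenvalue
  one. -/
def JannsenHolds (p : ℕ) [Fact p.Prime] (ν : PadicAlgCl p ≃+* ℂ) (P : RedAV p ν → Prop) : Prop :=
  ∀ (Ω : Type) [Field Ω] [IsAlgClosed Ω] [CharZero Ω] (V : Type) (T : Homology Ω V),
    IsHomology T →
      (∀ X : V, Generated T (IsAbelianOf P T) X → TB T X ∧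
        ∀ (Z U : V) (d : ℤ), IsTriple T Z X U → HasDimAtMost T Z d →
          ∀ i j : ℤ, d ≤ j → IsRegIso T U i j) ∧
      (HasWeights T → ∀ X : V, Spread T (Generated T (IsAbelianOf P T)) X → ∀ i : ℤ, IsOnto T X i)

end Pool.Agent.V5helper90.TB
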