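import Mathlib

/-!
# Flipped pairs of CM fields, and CM fields with irreducible odd part: definitions
-/

set_option autoImplicit false

namespace Pool.Agent.V5helper90.TB

open NumberField

/-- For all complex embeddings `φ` of `K` and `ψ` of `K'` some automorphism of the field of complex
numbers is the identity on `φ (K)` and the complex conjugation on `ψ (K')`. -/
def Flipped (K K' : Type) [Field K] [Field K'] : Prop :=
  ∀ (φ : K →+* ℂ) (ψ : K' →+* ℂ), ∃ σ : ℂ ≃+* ℂ,
    (∀ x, σ (φ x) = φ x) ∧ ∀ y, σ (ψ y) = (starRingEnd ℂ) (ψ y)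

/-- The representation of the automorphism group of `ℂ` on the space of the rational functions on
the complex embeddings of `K` which change the sign under complex conjugation is irreducible: every
subspace `S ≠ 0` which is stable under the automorphisms of `ℂ` and consists of such functions contains
all such functions. -/
def OddIrreducible (K : Type) [Field K] : Prop :=
  ∀ S : Submodule ℚ ((K →+* ℂ) → ℚ),
    (∀ σ : ℂ ≃+* ℂ, ∀ s ∈ S, (fun φ => s ((σ : ℂ →+* ℂ).comp φ)) ∈ S) →
    (∀ s ∈ S, ∀ φ : K →+* ℂ, s (ComplexEmbedding.conjugate φ) = - s φ) → S ≠ ⊥ →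
    ∀ f : (K →+* ℂ) → ℚ, (∀ φ, f (ComplexEmbedding.conjugate φ) = - f φ) → f ∈ S

end Pool.Agent.V5helper90.TB
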