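import Mathlib
import Pool.Agent.V5helper90.TB.FlipDefs
import Pool.Agent.TH170.MF.Quad2
import Pool.Agent.TH170.MF.Field
import Pool.Agent.TH170.QC.Final

/-!
# Flipped pairs of CM fields, and CM fields with irreducible odd part
-/

set_option autoImplicit false

namespace Pool.Agent.V5helper90.TB

open NumberField Module Finset Pool.Agent.H204R3.CM Pool.Agent.TH170.CM Pool.Agent.TH170.MF

theorem Flipped.symm {K K' : Type} [Field K] [Field K'] (h : Flipped K K') : Flipped K' K := by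
  intro ψ φ
  obtain ⟨σ, h1, h2⟩ := h φ ψ
  refine ⟨σ.trans (starRingAut (R := ℂ)), fun y => ?_, fun x => ?_⟩
  · show (starRingEnd ℂ) (σ (ψ y)) = ψ y
    rw [h2, Complex.conj_conj]
  · show (starRingEnd ℂ) (σ (φ x)) = _
    rw [h1]

section basic

variable {K : Type} [Field K]

/-- composition with an automorphism -/
abbrev mv (σ : ℂ ≃+* ℂ) (φ : K →+* ℂ) : K →+* ℂ := (σ : ℂ →+* ℂ).comp φ

abbrev cj (φ : K →+* ℂ) : K →+* ℂ := ComplexEmbedding.conjugate φ

theorem mv_mv (σ τ : ℂ ≃+* ℂ) (φ : K →+* ℂ) : mv σ (mv τ φ) = mv (τ.trans σ) φ := rfl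

theorem mv_symm (σ : ℂ ≃+* ℂ) (φ : K →+* ℂ) : mv σ (mv σ.symm φ) = φ := by
  ext x
  exact σ.apply_symm_apply (φ x)

theorem symm_mv (σ : ℂ ≃+* ℂ) (φ : K →+* ℂ) : mv σ.symm (mv σ φ) = φ := by
  ext x
  exact σ.symm_apply_apply (φ x)

theorem mv_inj (σ : ℂ ≃+* ℂ) {φ ψ : K →+* ℂ} (h : mv σ φ = mv σ ψ) : φ = ψ := by
  rw [← symm_mv σ φ, h, symm_mv]

variable [NumberField K] [IsCMField K]

theorem mv_cj (σ : ℂ ≃+* ℂ) (φ : K →+* ℂ) : mv σ (cj φ) = cj (mv σ φ) :=
  Pool.Agent.TH170.QC.comp_conj σ φ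

omit [NumberField K] [IsCMField K] in
theorem cj_cj (φ : K →+* ℂ) : cj (cj φ) = φ := conj_conj φ

theorem cj_ne (φ : K →+* ℂ) : cj φ ≠ φ := conj_ne φ

/-- A flip is given by the values on embeddings. -/
theorem flip_of {K' : Type} [Field K'] {φ : K →+* ℂ} {ψ : K' →+* ℂ} {σ : ℂ ≃+* ℂ}
    (h1 : mv σ φ = φ) (h2 : mv σ ψ = cj ψ) :
    (∀ x, σ (φ x) = φ x) ∧ ∀ y, σ (ψ y) = (starRingEnd ℂ) (ψ y) :=
  ⟨fun x => RingHom.congr_fun h1 x, fun y => RingHom.congr_fun h2 y⟩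

end basic

section flip

variable {K K' : Type} [Field K] [NumberField K] [IsCMField K] [Field K'] [NumberField K']
  [IsCMField K']

/-- If the pair `(φ₀, ψ₀)` is not flipped there is an injective equivariant map of the odd part of
`K` to the odd part of `K'`, if the first one is irreducible. -/
theorem exists_map (hK : OddIrreducible K) (φ₀ : K →+* ℂ) (ψ₀ : K' →+* ℂ)
    (h : ¬ ∃ σ : ℂ ≃+* ℂ, mv σ φ₀ = φ₀ ∧ mv σ ψ₀ = cj ψ₀) :
    ∃ A : ((K →+* ℂ) → ℚ) →ₗ[ℚ] ((K' →+* ℂ) → ℚ),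
      (∀ f ψ, A f (cj ψ) = - A f ψ) ∧
      (∀ (σ : ℂ ≃+* ℂ) f ψ, A (fun φ => f (mv σ φ)) ψ = A f (mv σ ψ)) ∧
      ∀ f, (∀ φ, f (cj φ) = - f φ) → A f = 0 → f = 0 := by
  classical
  -- the kernel
  let O : (K →+* ℂ) → (K' →+* ℂ) → Prop := fun φ ψ => ∃ σ : ℂ ≃+* ℂ, mv σ φ₀ = φ ∧ mv σ ψ₀ = ψ
  let a : (K →+* ℂ) → (K' →+* ℂ) → ℚ := fun φ ψ =>
    (if O φ ψ then 1 else 0) - (if O φ (cj ψ) then 1 else 0)
  have hO : ∀ (σ : ℂ ≃+* ℂ) φ ψ, O (mv σ φ) (mv σ ψ) ↔ O φ ψ := by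
    intro σ φ ψ
    constructor
    · rintro ⟨τ, h1, h2⟩
      refine ⟨τ.trans σ.symm, ?_, ?_⟩
      · rw [← mv_mv, h1, symm_mv]
      · rw [← mv_mv, h2, symm_mv]
    · rintro ⟨τ, h1, h2⟩
      refine ⟨τ.trans σ, ?_, ?_⟩
      · rw [← mv_mv, h1]
      · rw [← mv_mv, h2]
  have hOc : ∀ φ ψ, O (cj φ) ψ ↔ O φ (cj ψ) := by
    intro φ ψ
    have h1 : ∀ (F : Type) [Field F] (χ : F →+* ℂ), mv (starRingAut (R := ℂ)) χ = cj χ := by
      intro F _ χ
      rfl
    rw [← hO (starRingAut (R := ℂ)) φ (cj ψ), h1, h1, cj_cj]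
  have hOne : ∀ φ ψ, O φ ψ → ¬ O φ (cj ψ) := by
    rintro φ ψ ⟨σ, h1, h2⟩ ⟨τ, h3, h4⟩
    apply h
    refine ⟨τ.trans σ.symm, ?_, ?_⟩
    · rw [← mv_mv, h3, ← h1, symm_mv]
    · rw [← mv_mv, h4, ← h2, ← mv_cj, symm_mv]
  have ha1 : ∀ φ ψ, a φ (cj ψ) = - a φ ψ := by
    intro φ ψ
    simp only [a, cj_cj]
    ring
  have ha2 : ∀ φ ψ, a (cj φ) ψ = - a φ ψ := by
    intro φ ψ
    simp only [a, hOc, cj_cj]
    ring
  have ha3 : ∀ (σ : ℂ ≃+* ℂ) φ ψ, a (mv σ φ) (mv σ ψ) = a φ ψ := by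
    intro σ φ ψ
    simp only [a]
    rw [← mv_cj]
    simp only [hO]
  have ha4 : a φ₀ ψ₀ = 1 := by
    have h1 : O φ₀ ψ₀ := ⟨RingEquiv.refl ℂ, rfl, rfl⟩
    simp only [a]
    rw [if_pos h1, if_neg (hOne _ _ h1)]
    norm_num
  let A : ((K →+* ℂ) → ℚ) →ₗ[ℚ] ((K' →+* ℂ) → ℚ) :=
    { toFun := fun f ψ => ∑ φ, a φ ψ * f φ
      map_add' := fun f g => by
        funext ψ
        simp only [Pi.add_apply, mul_add, sum_add_distrib]
      map_smul' := fun c f => by
        funext ψ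
        simp only [Pi.smul_apply, smul_eq_mul, RingHom.id_apply, mul_sum]
        exact sum_congr rfl fun φ _ => by ring }
  have hA : ∀ f ψ, A f ψ = ∑ φ, a φ ψ * f φ := fun f ψ => rfl
  have hA1 : ∀ f ψ, A f (cj ψ) = - A f ψ := by
    intro f ψ
    rw [hA, hA, ← sum_neg_distrib]
    exact sum_congr rfl fun φ _ => by rw [ha1]; ring
  have hA2 : ∀ (σ : ℂ ≃+* ℂ) f ψ, A (fun φ => f (mv σ φ)) ψ = A f (mv σ ψ) := by
    intro σ f ψ
    rw [hA, hA, ← Equiv.sum_comp (permOf K σ) (fun φ => a φ (mv σ ψ) * f φ)]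
    refine sum_congr rfl fun φ _ => ?_
    have h1 : permOf K σ φ = mv σ φ := rfl
    rw [h1, ha3]
  refine ⟨A, hA1, hA2, ?_⟩
  -- the kernel of `A`
  let S : Submodule ℚ ((K →+* ℂ) → ℚ) :=
    { carrier := {f | (∀ φ, f (cj φ) = - f φ) ∧ A f = 0}
      zero_mem' := ⟨fun φ => by simp, map_zero A⟩
      add_mem' := by
        rintro f g ⟨h1, h2⟩ ⟨h3, h4⟩
        refine ⟨fun φ => ?_, by rw [map_add, h2, h4, add_zero]⟩
        rw [Pi.add_apply, Pi.add_apply, h1, h3]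
        ring
      smul_mem' := by
        rintro c f ⟨h1, h2⟩
        refine ⟨fun φ => ?_, by rw [map_smul, h2, smul_zero]⟩
        rw [Pi.smul_apply, Pi.smul_apply, h1, smul_eq_mul, smul_eq_mul]
        ring }
  have hS1 : IsStable S := by
    rintro σ f ⟨h1, h2⟩
    refine ⟨fun φ => ?_, ?_⟩
    · show f (mv σ (cj φ)) = - f (mv σ φ)
      rw [mv_cj, h1]
    · funext ψ
      have h3 := hA2 σ f ψ
      rw [h2] at h3
      exact h3
  have hS2 : IsOddSpace S := fun f hf φ => hf.1 φ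
  by_cases hS0 : S = ⊥
  · intro f h1 h2
    have h3 : f ∈ S := ⟨h1, h2⟩
    rw [hS0] at h3
    exact (Submodule.mem_bot ℚ).1 h3
  · exfalso
    have h1 := hK S hS1 hS2 hS0 (fun φ => (if φ = φ₀ then 1 else 0) - (if φ = cj φ₀ then 1 else 0))
      (fun φ => by
        have e1 : (cj φ = φ₀) ↔ (φ = cj φ₀) :=
          ⟨fun h => by rw [← h, cj_cj], fun h => by rw [h, cj_cj]⟩
        have e2 : (cj φ = cj φ₀) ↔ (φ = φ₀) :=
          ⟨fun h => by rw [← cj_cj φ, h, cj_cj], fun h => by rw [h]⟩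
        show (if cj φ = φ₀ then (1:ℚ) else 0) - (if cj φ = cj φ₀ then 1 else 0) = _
        simp only [e1, e2]
        ring)
    have h2 := congrFun h1.2 ψ₀
    rw [hA] at h2
    have h3 : ∀ φ, a φ ψ₀ * ((if φ = φ₀ then (1:ℚ) else 0) - (if φ = cj φ₀ then 1 else 0)) =
        (if φ = φ₀ then a φ ψ₀ else 0) - (if φ = cj φ₀ then a φ ψ₀ else 0) := by
      intro φ
      split_ifs <;> ring
    rw [sum_congr rfl fun φ _ => h3 φ, sum_sub_distrib, sum_ite_eq' univ φ₀,
      sum_ite_eq' univ (cj φ₀), if_pos (mem_univ _), if_pos (mem_univ _), ha2, ha4] at h2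
    norm_num at h2

/-- The space of odd functions. -/
def oddSpace (K : Type) [Field K] : Submodule ℚ ((K →+* ℂ) → ℚ) where
  carrier := {f | ∀ φ, f (cj φ) = - f φ}
  zero_mem' := fun φ => by simp
  add_mem' := by
    intro f g h1 h2 φ
    rw [Pi.add_apply, Pi.add_apply, h1, h2]
    ring
  smul_mem' := by
    intro c f h1 φ
    rw [Pi.smul_apply, Pi.smul_apply, h1, smul_eq_mul, smul_eq_mul]
    ring

theorem mem_oddSpace {f : (K →+* ℂ) → ℚ} : f ∈ oddSpace K ↔ ∀ φ, f (cj φ) = - f φ := Iff.rfl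

/-- The dimension of the space of odd functions. -/
theorem finrank_oddSpace : 2 * finrank ℚ (oddSpace K) = finrank ℚ K := by
  classical
  obtain ⟨T, hT⟩ := exists_transversal (X := K →+* ℂ) (c := ComplexEmbedding.conjugate (K := K))
    conj_conj conj_ne
  have hTg : finrank ℚ K = 2 * T.card := by
    have := card_transversal (X := K →+* ℂ) (c := ComplexEmbedding.conjugate (K := K)) conj_conj hT
    rw [Embeddings.card] at this
    exact this
  let R : oddSpace K →ₗ[ℚ] (T → ℚ) :=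
    { toFun := fun f x => f.1 x
      map_add' := fun f g => rfl
      map_smul' := fun c f => rfl }
  have hR : Function.Bijective R := by
    constructor
    · intro f g h
      apply Subtype.ext
      funext φ
      by_cases hφ : φ ∈ T
      · exact congrFun h ⟨φ, hφ⟩
      · have h1 : cj φ ∈ T := by
          by_contra h2
          exact hφ ((hT φ).2 h2)
        have h2 := congrFun h ⟨cj φ, h1⟩
        have h3 : f.1 (cj φ) = g.1 (cj φ) := h2
        rw [f.2 φ, g.2 φ] at h3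
        linarith
    · intro h
      refine ⟨⟨fun φ => if hφ : φ ∈ T then h ⟨φ, hφ⟩ else
        (if hφ' : cj φ ∈ T then - h ⟨cj φ, hφ'⟩ else 0), ?_⟩, ?_⟩
      · intro φ
        have h1 := hT φ
        by_cases hφ : φ ∈ T
        · have h2 : cj φ ∉ T := h1.1 hφ
          have h3 : cj (cj φ) ∈ T := by rw [cj_cj]; exact hφ
          show (if hφ : cj φ ∈ T then h ⟨cj φ, hφ⟩ else
            (if hφ' : cj (cj φ) ∈ T then - h ⟨cj (cj φ), hφ'⟩ else 0)) = _
          rw [dif_neg h2, dif_pos h3]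
          show _ = -(if hφ : φ ∈ T then h ⟨φ, hφ⟩ else _)
          rw [dif_pos hφ]
          congr 2
          exact Subtype.ext (cj_cj φ)
        · have h2 : cj φ ∈ T := by
            by_contra h3
            exact hφ (h1.2 h3)
          show (if hφ : cj φ ∈ T then h ⟨cj φ, hφ⟩ else
            (if hφ' : cj (cj φ) ∈ T then - h ⟨cj (cj φ), hφ'⟩ else 0)) = _
          rw [dif_pos h2]
          show _ = -(if hφ : φ ∈ T then h ⟨φ, hφ⟩ else
            (if hφ' : cj φ ∈ T then - h ⟨cj φ, hφ'⟩ else 0))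
          rw [dif_neg hφ, dif_pos h2, neg_neg]
      · funext x
        show (if hφ : x.1 ∈ T then h ⟨x.1, hφ⟩ else _) = _
        rw [dif_pos x.2]
  rw [(LinearEquiv.ofBijective R hR).finrank_eq, finrank_fintype_fun_eq_card, Fintype.card_coe, hTg]

/-- **An irreducible odd part is independent of all fields of smaller degree.** -/
theorem flipped_of_finrank (hK : OddIrreducible K) (h : finrank ℚ K' < finrank ℚ K) :
    Flipped K K' := by
  intro φ₀ ψ₀
  by_contra hcon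
  obtain ⟨A, h1, -, h3⟩ := exists_map hK φ₀ ψ₀ (fun ⟨σ, h4, h5⟩ => hcon ⟨σ, flip_of h4 h5⟩)
  let B : oddSpace K →ₗ[ℚ] oddSpace K' :=
    (A.comp (oddSpace K).subtype).codRestrict (oddSpace K') (fun f ψ => h1 f.1 ψ)
  have hB : Function.Injective B := by
    rw [← LinearMap.ker_eq_bot, LinearMap.ker_eq_bot']
    intro f hf
    have h4 : A f.1 = 0 := congrArg Subtype.val hf
    exact Subtype.ext (h3 f.1 f.2 h4)
  have h4 := LinearMap.finrank_le_finrank_of_injective hB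
  have h5 := finrank_oddSpace (K := K)
  have h6 := finrank_oddSpace (K := K')
  omega

theorem flipped_of_mv (hK : OddIrreducible K) {τ : ℂ ≃+* ℂ}
    (h1 : ∀ ψ : K' →+* ℂ, mv τ ψ = ψ) {φ₁ : K →+* ℂ} (h2 : mv τ φ₁ ≠ φ₁) : Flipped K K' := by
  classical
  intro φ₀ ψ₀
  by_contra hcon
  obtain ⟨A, -, h4, h5⟩ := exists_map hK φ₀ ψ₀ (fun ⟨σ, h4, h5⟩ => hcon ⟨σ, flip_of h4 h5⟩)
  let f : (K →+* ℂ) → ℚ := fun φ => (if φ = φ₁ then 1 else 0) - (if φ = cj φ₁ then 1 else 0)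
  have hf : ∀ φ, f (cj φ) = - f φ := by
    intro φ
    have e1 : (cj φ = φ₁) ↔ (φ = cj φ₁) :=
      ⟨fun h => by rw [← h, cj_cj], fun h => by rw [h, cj_cj]⟩
    have e2 : (cj φ = cj φ₁) ↔ (φ = φ₁) :=
      ⟨fun h => by rw [← cj_cj φ, h, cj_cj], fun h => by rw [h]⟩
    simp only [f, e1, e2]
    ring
  have h6 : A ((fun φ => f (mv τ φ)) - f) = 0 := by
    rw [map_sub, sub_eq_zero]
    funext ψ
    rw [h4, h1]
  have h7 := h5 _ (fun φ => by
    rw [Pi.sub_apply, Pi.sub_apply, mv_cj, hf, hf]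
    ring) h6
  have h8 := congrFun h7 φ₁
  rw [Pi.sub_apply, Pi.zero_apply] at h8
  simp only [f] at h8
  rw [if_neg h2, if_neg (Ne.symm (cj_ne φ₁))] at h8
  split_ifs at h8 <;> norm_num at h8

end flip

section closure

/-- Two fields as a family. -/
def two (K K' : Type) : Bool → Type
  | true => K
  | false => K'

variable {K K' : Type} [Field K] [Field K']

instance : ∀ b, Field (two K K' b)
  | true => inferInstanceAs (Field K)
  | false => inferInstanceAs (Field K')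

instance [NumberField K] [NumberField K'] : ∀ b, NumberField (two K K' b)
  | true => inferInstanceAs (NumberField K)
  | false => inferInstanceAs (NumberField K')

/-- Automorphisms of `ℂ` and normal closures. -/
theorem exists_mv [NumberField K] [NumberField K']
    (h : ¬ IntermediateField.normalClosure ℚ K ℂ ≤ IntermediateField.normalClosure ℚ K' ℂ) :
    ∃ τ : ℂ ≃+* ℂ, (∀ ψ : K' →+* ℂ, mv τ ψ = ψ) ∧ ∃ φ : K →+* ℂ, mv τ φ ≠ φ := by
  classical
  by_contra hcon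
  push Not at hcon
  apply h
  obtain ⟨L, _, _, j, hj⟩ := exists_galois (two K K')
  have hjK : ∀ φ : K →+* ℂ, ∃ φ' : K →+* L, j.comp φ' = φ := hj true
  have hjK' : ∀ φ : K' →+* ℂ, ∃ φ' : K' →+* L, j.comp φ' = φ := hj false
  let N' : IntermediateField ℚ ℂ := IntermediateField.normalClosure ℚ K' ℂ
  let jA : L →ₐ[ℚ] ℂ := RingHom.toRatAlgHom j
  let M : IntermediateField ℚ L := N'.comap jA
  have hM : ∀ l : L, l ∈ M ↔ j l ∈ N' := fun l => Iff.rfl
  rw [normalClosure_le_iff]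
  rintro f _ ⟨x, rfl⟩
  obtain ⟨φ', hφ'⟩ := hjK (f : K →+* ℂ)
  have hfx : f x = j (φ' x) := (RingHom.congr_fun hφ' x).symm
  show f x ∈ N'
  rw [hfx, ← hM]
  rw [← IsGalois.fixedField_fixingSubgroup M, IntermediateField.mem_fixedField_iff]
  intro g hg
  rw [IntermediateField.mem_fixingSubgroup_iff] at hg
  obtain ⟨τ, hτ⟩ := Pool.Agent.H977R3.CM.exists_aut j (g : L ≃+* L)
  have h1 : ∀ ψ : K' →+* ℂ, mv τ ψ = ψ := by
    intro ψ
    obtain ⟨ψ', hψ'⟩ := hjK' ψ
    ext y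
    have h2 : ψ y = j (ψ' y) := (RingHom.congr_fun hψ' y).symm
    have h3 : ψ' y ∈ M := by
      rw [hM, ← h2]
      exact (RingHom.toRatAlgHom ψ).fieldRange_le_normalClosure ⟨y, rfl⟩
    show τ (ψ y) = ψ y
    rw [h2, hτ]
    exact congrArg j (hg _ h3)
  have h2 := RingHom.congr_fun (hcon τ h1 (f : K →+* ℂ)) x
  have h3 : τ (f x) = f x := h2
  rw [hfx, hτ] at h3
  exact j.injective h3

/-- **An irreducible odd part is independent of all CM fields whose Galois closure does not contain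
the given field.** -/
theorem flipped_of_closure [NumberField K] [IsCMField K] [NumberField K'] [IsCMField K']
    (hK : OddIrreducible K)
    (h : ¬ IntermediateField.normalClosure ℚ K ℂ ≤ IntermediateField.normalClosure ℚ K' ℂ) :
    Flipped K K' := by
  obtain ⟨τ, h1, φ, h2⟩ := exists_mv h
  exact flipped_of_mv hK h1 h2

end closure

section crit

variable {K : Type} [Field K] [NumberField K] [IsCMField K]

/-- The basic odd functions. -/
noncomputable def dl (φ : K →+* ℂ) : (K →+* ℂ) → ℚ := by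
  classical
  exact fun ψ => (if ψ = φ then 1 else 0) - (if ψ = cj φ then 1 else 0)

omit [IsCMField K] in
/-- The basic odd functions span the odd functions. -/
theorem mem_of_dl {S : Submodule ℚ ((K →+* ℂ) → ℚ)} (h : ∀ φ, dl φ ∈ S) {f : (K →+* ℂ) → ℚ}
    (hf : ∀ φ, f (cj φ) = - f φ) : f ∈ S := by
  classical
  have h1 : f = ∑ φ, (f φ / 2) • dl φ := by
    funext ψ
    rw [Finset.sum_apply]
    have h2 : ∀ φ, ((f φ / 2) • dl φ) ψ =
        (if ψ = φ then f φ / 2 else 0) - (if cj ψ = φ then f φ / 2 else 0) := by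
      intro φ
      have e1 : (ψ = cj φ) ↔ (cj ψ = φ) :=
        ⟨fun h => by rw [h, cj_cj], fun h => by rw [← h, cj_cj]⟩
      rw [Pi.smul_apply, smul_eq_mul]
      unfold dl
      simp only [e1]
      split_ifs <;> ring
    rw [sum_congr rfl fun φ _ => h2 φ, sum_sub_distrib, sum_ite_eq univ ψ,
      sum_ite_eq univ (cj ψ), if_pos (mem_univ _), if_pos (mem_univ _), hf]
    ring
  rw [h1]
  exact Submodule.sum_mem _ fun φ _ => Submodule.smul_mem _ _ (h φ)

/-- **If any two embeddings that are neither equal nor complex conjugate are flipped then the odd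
part is irreducible.** -/
theorem oddIrreducible_of_flips (h : ∀ φ ψ : K →+* ℂ, ψ ≠ φ → ψ ≠ cj φ →
    ∃ σ : ℂ ≃+* ℂ, mv σ φ = φ ∧ mv σ ψ = cj ψ) : OddIrreducible K := by
  classical
  intro S hst hodd hS f hf
  obtain ⟨u, huS, hu0⟩ := (Submodule.ne_bot_iff S).1 hS
  obtain ⟨φ₀, hφ₀⟩ : ∃ φ, u φ ≠ 0 := by
    by_contra hcon
    push Not at hcon
    exact hu0 (funext hcon)
  let St : Finset (Gal K) := univ.filter fun γ => γ • φ₀ = φ₀
  let F : (K →+* ℂ) → ℚ := fun φ => ∑ γ ∈ St, u (γ • φ)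
  have hFS : F ∈ S := by
    have h1 : F = ∑ γ ∈ St, fun φ => u (γ • φ) := by
      funext φ
      rw [Finset.sum_apply]
    rw [h1]
    refine Submodule.sum_mem _ fun γ _ => ?_
    obtain ⟨σ, hσ⟩ := gal_smul K γ
    simp only [hσ]
    exact hst σ u huS
  have hF0 : F φ₀ = St.card * u φ₀ := by
    show ∑ γ ∈ St, u (γ • φ₀) = _
    rw [sum_congr rfl fun γ hγ => by rw [(mem_filter.1 hγ).2], sum_const, nsmul_eq_mul]
  have hSt : (St.card : ℚ) ≠ 0 := by
    have : St.Nonempty := ⟨1, mem_filter.2 ⟨mem_univ _, one_smul _ _⟩⟩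
    exact_mod_cast this.card_pos.ne'
  have hFodd : ∀ φ, F (cj φ) = - F φ := hodd F hFS
  have hFz : ∀ ψ, ψ ≠ φ₀ → ψ ≠ cj φ₀ → F ψ = 0 := by
    intro ψ h1 h2
    obtain ⟨σ, h3, h4⟩ := h φ₀ ψ h1 h2
    obtain ⟨γ, hγ⟩ := exists_gal_smul K σ
    have h5 : F (γ • ψ) = F ψ := by
      show ∑ δ ∈ St, u (δ • γ • ψ) = ∑ δ ∈ St, u (δ • ψ)
      refine sum_bij (fun δ _ => δ * γ) ?_ ?_ ?_ ?_
      · intro δ hδ
        refine mem_filter.2 ⟨mem_univ _, ?_⟩
        have : γ • φ₀ = φ₀ := (hγ φ₀).trans h3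
        rw [mul_smul, this, (mem_filter.1 hδ).2]
      · intro δ _ δ' _ h
        exact mul_right_cancel h
      · intro δ hδ
        refine ⟨δ * γ⁻¹, mem_filter.2 ⟨mem_univ _, ?_⟩, by group⟩
        have : γ • φ₀ = φ₀ := (hγ φ₀).trans h3
        rw [mul_smul]
        have h6 : γ⁻¹ • φ₀ = φ₀ := by rw [inv_smul_eq_iff, this]
        rw [h6, (mem_filter.1 hδ).2]
      · intro δ _
        rw [mul_smul]
    rw [(hγ ψ).trans h4, hFodd] at h5
    linarith
  have hdl : ∀ φ, dl φ ∈ S := by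
    have h0 : dl φ₀ ∈ S := by
      have h1 : dl φ₀ = (F φ₀)⁻¹ • F := by
        have hne : F φ₀ ≠ 0 := by
          rw [hF0]
          exact mul_ne_zero hSt hφ₀
        funext ψ
        rw [Pi.smul_apply, smul_eq_mul]
        unfold dl
        by_cases h2 : ψ = φ₀
        · rw [h2, if_pos rfl, if_neg (Ne.symm (cj_ne φ₀)), inv_mul_cancel₀ hne, sub_zero]
        · by_cases h3 : ψ = cj φ₀
          · rw [if_neg h2, if_pos h3, h3, hFodd, mul_neg, inv_mul_cancel₀ hne, zero_sub]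
          · rw [if_neg h2, if_neg h3, hFz ψ h2 h3, mul_zero, sub_zero]
      rw [h1]
      exact Submodule.smul_mem _ _ hFS
    intro φ
    obtain ⟨σ, hσ⟩ := exists_comp_eq K φ φ₀
    have h1 : (fun ψ => dl φ₀ (mv σ ψ)) = dl φ := by
      funext ψ
      unfold dl
      have e1 : (mv σ ψ = φ₀) ↔ (ψ = φ) :=
        ⟨fun h => mv_inj σ (h.trans hσ.symm), fun h => by rw [h]; exact hσ⟩
      have e2 : (mv σ ψ = cj φ₀) ↔ (ψ = cj φ) := by
        constructor
        · intro h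
          apply mv_inj σ
          rw [h, mv_cj]
          exact congrArg cj hσ.symm
        · intro h
          rw [h, mv_cj]
          exact congrArg cj hσ
      simp only [e1, e2]
    rw [← h1]
    exact hst σ _ h0
  exact mem_of_dl hdl hf

end crit

end Pool.Agent.V5helper90.TB
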