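import Mathlib
import Pool.Agent.V5helper90.TB.Flip
import Pool.Agent.TH170.GS.Rel
import Pool.Agent.Y137.SF.Defs2

/-!
# Relations between the Frobenius eigenvalues of abelian varieties in independent blocks
-/

set_option autoImplicit false

namespace Pool.Agent.V5helper90.TB

open NumberField Finset Module Pool.Agent.H204R3.CM Pool.Agent.H977R3.CM Pool.Agent.TH170.CM
  Pool.Agent.TH170.MF Pool.Agent.W495.TA Pool.Agent.TH117 Pool.Agent.TH170.FW Pool.Agent.TH170.GS
  Pool.Agent.Y137.SF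

variable {p : ℕ} [Fact p.Prime] {ν : PadicAlgCl p ≃+* ℂ}

/-- Vanishing of all the slopes gives a relation. -/
theorem isRel_of_dev {Z : RedAV p ν} {e : BL.Emb Z → ℕ}
    (h : ∀ σ : ℂ ≃+* ℂ, ∑ w, (e w : ℝ) * dev Z σ w = 0) : BL.IsRel Z e := by
  classical
  by_cases hI : Nonempty Z.X.I
  · obtain ⟨L, _, _, _, _, j, hj⟩ := Pool.Agent.W547.KB.exists_cm Z.X
    have hbij := BL.toEmb_bijective (j := j) (Z := Z) hj
    let E : Pool.Agent.W547.KB.Wt Z.X L ≃ BL.Emb Z := Equiv.ofBijective _ hbij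
    let _ : Fintype (Pool.Agent.W547.KB.Wt Z.X L) := Fintype.ofEquiv _ E.symm
    refine (BL.isRel_iff (Z := Z) (j := j) hj _).2 fun g => ?_
    obtain ⟨σ, hσ⟩ := exists_aut j (g : L ≃+* L)
    have hp1 : (1 : ℝ) < p := by exact_mod_cast (Fact.out : p.Prime).one_lt
    have hNp : ‖(p : PadicAlgCl p)‖ = (p : ℝ)⁻¹ := by
      have h2 : (p : PadicAlgCl p) = ((p : ℚ_[p]) : PadicAlgCl p) := by
        rw [map_natCast]
      rw [h2, PadicAlgCl.norm_extends, Padic.norm_p]
    have key : ∀ v : Pool.Agent.W547.KB.Wt Z.X L,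
        (Nat.card (W495.TA.Dec p ν j) : ℝ) * dev Z σ (BL.toEmb j Z v) =
          Z.a * ((BL.tw p ν j Z.X v g : ℤ) : ℝ) := by
      intro v
      have h1 := BL.norm_pow_two_card (Z := Z) (j := j) hj v g
      have hlp : Real.log p ≠ 0 := (Real.log_pos hp1).ne'
      have h2 := congrArg (fun x => Real.log x / Real.log p) h1
      beta_reduce at h2
      rw [Real.log_zpow, Real.log_zpow, hNp, Real.log_inv, mul_div_assoc, mul_div_assoc,
        neg_div, div_self hlp] at h2
      change _ * Real.logb p _ = _ at h2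
      have h3 : ν.symm (σ (BL.eig Z (BL.toEmb j Z v))) = ν.symm (j (g (v.2 (Z.π v.1)))) :=
        congrArg ν.symm (hσ (v.2 (Z.π v.1)))
      unfold dev
      rw [h3]
      push_cast at h2
      linarith
    have ha : (Z.a : ℝ) ≠ 0 := Nat.cast_ne_zero.2 Z.pos.ne'
    have h4 := h σ
    have h5 : (Z.a : ℝ) * ∑ v : Pool.Agent.W547.KB.Wt Z.X L,
        (e (BL.toEmb j Z v) : ℝ) * ((BL.tw p ν j Z.X v g : ℤ) : ℝ) = 0 := by
      have h6 : ∑ v : Pool.Agent.W547.KB.Wt Z.X L,
          (e (BL.toEmb j Z v) : ℝ) * dev Z σ (BL.toEmb j Z v) = 0 := by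
        rw [← h4]
        exact Equiv.sum_comp E (fun w => (e w : ℝ) * dev Z σ w)
      have h7 : (Nat.card (W495.TA.Dec p ν j) : ℝ) * ∑ v : Pool.Agent.W547.KB.Wt Z.X L,
          (e (BL.toEmb j Z v) : ℝ) * dev Z σ (BL.toEmb j Z v) = 0 := by rw [h6, mul_zero]
      rw [← h7, mul_sum, mul_sum]
      refine sum_congr rfl fun v _ => ?_
      have := key v
      linear_combination -(e (BL.toEmb j Z v) : ℝ) * this
    have h6 := (mul_eq_zero.1 h5).resolve_left ha
    exact_mod_cast h6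
  · refine ⟨1, one_pos, ?_⟩
    have : IsEmpty (BL.Emb Z) := ⟨fun w => hI ⟨w.1⟩⟩
    simp

/-- The group generated by the elementary relations. -/
def ElemS (Z : RedAV p ν) : AddSubgroup (BL.Emb Z → ℤ) :=
  AddSubgroup.closure {d : BL.Emb Z → ℤ | ∃ n : BL.Emb Z → ℕ, BL.IsRel Z n ∧ IsElementaryS Z n ∧
    ∀ w, d w = n w}

theorem single_memS {Z : RedAV p ν} [DecidableEq (BL.Emb Z)] (w : BL.Emb Z)
    (h : ∀ σ : ℂ ≃+* ℂ, dev Z σ w = 0) : (Pi.single w 1 : BL.Emb Z → ℤ) ∈ ElemS Z := by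
  have hsum : ∑ v, (Pi.single w 1 : BL.Emb Z → ℕ) v = 1 := by
    simp only [Finset.sum_pi_single', mem_univ, if_true]
  refine AddSubgroup.subset_closure ⟨Pi.single w 1, isRel_of_dev fun σ => ?_,
    Or.inl (hsum.le.trans one_le_two), fun v => ?_⟩
  · rw [sum_eq_single w]
    · rw [h, mul_zero]
    · intro v _ hv
      rw [Pi.single_eq_of_ne hv, Nat.cast_zero, zero_mul]
    · intro h
      exact absurd (mem_univ _) h
  · simp only [Pi.single_apply]
    split_ifs <;> simp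

theorem pair_memS {Z : RedAV p ν} [DecidableEq (BL.Emb Z)] (w w' : BL.Emb Z)
    (h : ∀ σ : ℂ ≃+* ℂ, dev Z σ w + dev Z σ w' = 0) :
    (Pi.single w 1 + Pi.single w' 1 : BL.Emb Z → ℤ) ∈ ElemS Z := by
  have hsum : ∑ v, (Pi.single w 1 + Pi.single w' 1 : BL.Emb Z → ℕ) v = 2 := by
    simp only [Pi.add_apply, sum_add_distrib, Finset.sum_pi_single', mem_univ, if_true]
  refine AddSubgroup.subset_closure ⟨Pi.single w 1 + Pi.single w' 1, isRel_of_dev fun σ => ?_,
    Or.inl hsum.le, fun v => ?_⟩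
  · simp only [Pi.add_apply, Nat.cast_add, add_mul, sum_add_distrib]
    have h1 : ∀ u : BL.Emb Z, ∑ v, (((Pi.single u 1 : BL.Emb Z → ℕ) v : ℕ) : ℝ) * dev Z σ v =
        dev Z σ u := by
      intro u
      rw [sum_eq_single u]
      · rw [Pi.single_eq_same, Nat.cast_one, one_mul]
      · intro v _ hv
        rw [Pi.single_eq_of_ne hv, Nat.cast_zero, zero_mul]
      · intro h
        exact absurd (mem_univ _) h
    rw [h1, h1, h]
  · rw [Pi.add_apply, Pi.add_apply, Nat.cast_add]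
    simp only [Pi.single_apply]
    split_ifs <;> simp

section dev

theorem norm_pow_inj {a b : ℝ} (ha : 0 ≤ a) (hb : 0 ≤ b) {s : ℕ} (hs : 0 < s)
    (h : a ^ s = b ^ s) : a = b := (pow_left_inj₀ ha hb hs.ne').1 h

/-- Slopes of conjugates with equal powers. -/
theorem dev_congr {Z : RedAV p ν} {σ τ : ℂ ≃+* ℂ} {w w' : BL.Emb Z} {s : ℕ} (hs : 0 < s)
    (h : σ (BL.eig Z w) ^ s = τ (BL.eig Z w') ^ s) : dev Z σ w = dev Z τ w' := by
  have h1 : ‖ν.symm (σ (BL.eig Z w))‖ = ‖ν.symm (τ (BL.eig Z w'))‖ := by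
    apply norm_pow_inj (norm_nonneg _) (norm_nonneg _) hs
    have h2 := congrArg (fun z => ‖ν.symm z‖) h
    simpa only [map_pow, norm_pow] using h2
  unfold dev
  rw [h1]

/-- The conjugate eigenvalue. -/
theorem eig_mul_conj {Z : RedAV p ν} (w : BL.Emb Z) :
    BL.eig Z w * (starRingEnd ℂ) (BL.eig Z w) = (p : ℂ) ^ Z.a := by
  have h1 := (Z.frob w.1).weil w.2
  rw [Complex.mul_conj, Complex.normSq_eq_norm_sq]
  have h2 : ‖BL.eig Z w‖ ^ 2 = (p : ℝ) ^ Z.a := h1
  rw [h2]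
  push_cast
  rfl

theorem logb_norm_p_pow (a : ℕ) :
    - Real.logb p ‖ν.symm ((p : ℂ) ^ a)‖ = a := by
  have hp1 : (1 : ℝ) < p := by exact_mod_cast (Fact.out : p.Prime).one_lt
  rw [map_pow, norm_pow, norm_symm_p, Real.logb_pow, Real.logb_inv, Real.logb_self_eq_one hp1]
  ring

/-- Slopes of a conjugate whose power is the power of the complex conjugate eigenvalue. -/
theorem dev_conj {Z : RedAV p ν} {σ τ : ℂ ≃+* ℂ} {w w' : BL.Emb Z} {s : ℕ} (hs : 0 < s)
    (h : σ (BL.eig Z w) ^ s = τ ((starRingEnd ℂ) (BL.eig Z w')) ^ s) :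
    dev Z σ w = - dev Z τ w' := by
  have hp1 : (1 : ℝ) < p := by exact_mod_cast (Fact.out : p.Prime).one_lt
  have h1 : ‖ν.symm (σ (BL.eig Z w))‖ = ‖ν.symm (τ ((starRingEnd ℂ) (BL.eig Z w')))‖ := by
    apply norm_pow_inj (norm_nonneg _) (norm_nonneg _) hs
    have h2 := congrArg (fun z => ‖ν.symm z‖) h
    simpa only [map_pow, norm_pow] using h2
  have h2 := congrArg (fun x => - Real.logb p ‖ν.symm (τ x)‖) (eig_mul_conj w')
  beta_reduce at h2
  have h3 : τ ((p : ℂ) ^ Z.a) = (p : ℂ) ^ Z.a := by rw [map_pow, map_natCast]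
  rw [h3, logb_norm_p_pow, map_mul, map_mul, norm_mul, Real.logb_mul] at h2
  · unfold dev
    rw [h1]
    linarith
  · rw [Ne, norm_eq_zero, map_eq_zero, map_eq_zero]
    exact eig_ne_zero w'
  · rw [Ne, norm_eq_zero, map_eq_zero, map_eq_zero, map_eq_zero]
    exact eig_ne_zero w'

/-- Two eigenvalues are flipped. -/
def FlippedEig (x y : ℂ) : Prop :=
  ∃ (σ : ℂ ≃+* ℂ) (s t : ℕ), 0 < s ∧ 0 < t ∧ σ (x ^ s) = x ^ s ∧
    σ (y ^ t) = (starRingEnd ℂ) (y ^ t)

/-- Two weights do not interact. -/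
def Unrelated (Z : RedAV p ν) (w w' : BL.Emb Z) : Prop :=
  (∀ σ : ℂ ≃+* ℂ, dev Z σ w = 0) ∨ (∀ σ : ℂ ≃+* ℂ, dev Z σ w' = 0) ∨
    FlippedEig (BL.eig Z w) (BL.eig Z w')

/-- **Relations split.** -/
theorem split {Z : RedAV p ν} {e : BL.Emb Z → ℕ} (he : BL.IsRel Z e) (P : BL.Emb Z → Prop)
    [DecidablePred P] (hP : ∀ w w', P w → ¬ P w' → Unrelated Z w w') :
    BL.IsRel Z (fun w => if P w then e w else 0) := by
  classical
  by_cases hI : Nonempty Z.X.I
  swap
  · refine ⟨1, one_pos, ?_⟩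
    have : IsEmpty (BL.Emb Z) := ⟨fun w => hI ⟨w.1⟩⟩
    simp
  obtain ⟨L, _, _, _, _, j, hj⟩ := Pool.Agent.W547.KB.exists_cm Z.X
  have hbij := BL.toEmb_bijective (j := j) (Z := Z) hj
  have hx : ∀ w : BL.Emb Z, ∃ x : L, j x = BL.eig Z w := by
    intro w
    obtain ⟨v, rfl⟩ := hbij.2 w
    exact ⟨v.2 (Z.π v.1), rfl⟩
  choose σg hσg using fun g : L ≃ₐ[ℚ] L => exists_aut j (g : L ≃+* L)
  -- dependence on the restriction
  have hres : ∀ (σ τ : ℂ ≃+* ℂ) (w : BL.Emb Z), (∀ x, σ (j x) = τ (j x)) →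
      dev Z σ w = dev Z τ w := by
    intro σ τ w h
    obtain ⟨x, hx⟩ := hx w
    refine dev_congr one_pos ?_
    rw [← hx, h]
  -- orthogonality
  have horth : ∀ w w', Unrelated Z w w' →
      ∑ g : L ≃ₐ[ℚ] L, dev Z (σg g) w * dev Z (σg g) w' = 0 := by
    rintro w w' (h | h | ⟨σ, s, t, hs, ht, h1, h2⟩)
    · exact sum_eq_zero fun g _ => by rw [h, zero_mul]
    · exact sum_eq_zero fun g _ => by rw [h, mul_zero]
    · obtain ⟨h, hh⟩ := exists_gal j σ
      have h3 : ∀ g, dev Z (σg (g * h)) w = dev Z (σg g) w := by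
        intro g
        rw [hres (σg (g * h)) (σ.trans (σg g)) w fun x => by
          show _ = σg g (σ (j x))
          rw [hσg, hh, hσg]
          rfl]
        refine dev_congr hs ?_
        show σg g (σ (BL.eig Z w)) ^ s = _
        rw [← map_pow, ← map_pow, h1, map_pow]
      have h4 : ∀ g, dev Z (σg (g * h)) w' = - dev Z (σg g) w' := by
        intro g
        rw [hres (σg (g * h)) (σ.trans (σg g)) w' fun x => by
          show _ = σg g (σ (j x))
          rw [hσg, hh, hσg]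
          rfl]
        refine dev_conj ht ?_
        show σg g (σ (BL.eig Z w')) ^ t = _
        rw [← map_pow, ← map_pow, h2, map_pow, map_pow]
      have h5 : ∑ g : L ≃ₐ[ℚ] L, dev Z (σg g) w * dev Z (σg g) w' =
          ∑ g : L ≃ₐ[ℚ] L, - (dev Z (σg g) w * dev Z (σg g) w') := by
        rw [← Equiv.sum_comp (Equiv.mulRight h)]
        refine sum_congr rfl fun g _ => ?_
        show dev Z (σg (g * h)) w * dev Z (σg (g * h)) w' = _
        rw [h3, h4]
        ring
      rw [sum_neg_distrib] at h5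
      linarith
  let A : (L ≃ₐ[ℚ] L) → ℝ := fun g => ∑ w, if P w then (e w : ℝ) * dev Z (σg g) w else 0
  let B : (L ≃ₐ[ℚ] L) → ℝ := fun g => ∑ w, if P w then 0 else (e w : ℝ) * dev Z (σg g) w
  have hAB : ∀ g, A g + B g = 0 := by
    intro g
    rw [← sum_dev_of_isRel he (σg g)]
    simp only [A, B]
    rw [← sum_add_distrib]
    refine sum_congr rfl fun w _ => ?_
    split_ifs <;> ring
  have hABo : ∑ g, A g * B g = 0 := by
    simp only [A, B]
    have h1 : ∀ g, (∑ w, if P w then (e w : ℝ) * dev Z (σg g) w else 0) *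
        (∑ w, if P w then 0 else (e w : ℝ) * dev Z (σg g) w) =
        ∑ w, ∑ w', (if P w then (if P w' then 0 else
          (e w : ℝ) * (e w' : ℝ) * (dev Z (σg g) w * dev Z (σg g) w')) else 0) := by
      intro g
      rw [sum_mul_sum]
      refine sum_congr rfl fun w _ => sum_congr rfl fun w' _ => ?_
      split_ifs <;> ring
    rw [sum_congr rfl fun g _ => h1 g, sum_comm]
    refine sum_eq_zero fun w _ => ?_
    rw [sum_comm]
    refine sum_eq_zero fun w' _ => ?_
    by_cases h2 : P w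
    · by_cases h3 : P w'
      · simp only [if_pos h2, if_pos h3]
        exact sum_const_zero
      · simp only [if_pos h2, if_neg h3]
        rw [← mul_sum, horth w w' (hP w w' h2 h3), mul_zero]
    · simp only [if_neg h2]
      exact sum_const_zero
  have hA0 : ∀ g, A g = 0 := by
    have h1 : ∑ g, A g * A g = 0 := by
      have h2 : ∀ g, A g * A g = - (A g * B g) := by
        intro g
        have h3 : A g = - B g := by linarith [hAB g]
        nth_rw 2 [h3]
        ring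
      rw [sum_congr rfl fun g _ => h2 g, sum_neg_distrib, hABo, neg_zero]
    rw [sum_eq_zero_iff_of_nonneg (fun g _ => mul_self_nonneg _)] at h1
    intro g
    exact mul_self_eq_zero.1 (h1 g (mem_univ _))
  refine isRel_of_dev fun σ => ?_
  obtain ⟨h, hh⟩ := exists_gal j σ
  rw [← hA0 h]
  simp only [A]
  refine sum_congr rfl fun w _ => ?_
  have h1 : dev Z σ w = dev Z (σg h) w := hres _ _ w fun x => by
    rw [hh, hσg]
    rfl
  rw [h1]
  split_ifs
  · rfl
  · rw [Nat.cast_zero, zero_mul]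

end dev

end Pool.Agent.V5helper90.TB
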