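import Mathlib
import Pool.Agent.V5helper90.TB.FlipDefs
import Pool.Agent.V5helper90.TB.TBDefs

/-!
# Abelian varieties over finite fields in independent blocks: definitions
-/

set_option autoImplicit false

namespace Pool.Agent.V5helper90.TB

open NumberField Module Pool.Agent.W495.TA

variable {p : ℕ} [Fact p.Prime] {ν : PadicAlgCl p ≃+* ℂ}

/-- The odd part of `K` is irreducible (by definition, or since the degree of `K` is twice an odd
prime number and `K` contains no imaginary quadratic field). -/
def HasIrreducibleOddPart (K : Type) [Field K] [NumberField K] : Prop :=
  OddIrreducible K ∨ ∃ g : ℕ, g.Prime ∧ g ≠ 2 ∧ finrank ℚ K = 2 * g ∧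
    ∀ F : IntermediateField ℚ K, finrank ℚ F = 2 → IsTotallyReal F

/-- The odd part of `K` is irreducible, and the degree of `K'` is smaller than the degree of `K` or the
Galois closure of `K'` does not contain `K` (with its Galois closure). -/
def Dominates (K K' : Type) [Field K] [NumberField K] [Field K'] [NumberField K'] : Prop :=
  HasIrreducibleOddPart K ∧ (finrank ℚ K' < finrank ℚ K ∨
    ¬ IntermediateField.normalClosure ℚ K ℂ ≤ IntermediateField.normalClosure ℚ K' ℂ)

/-- The CM fields `K` and `K'` are independent: all pairs of complex embeddings are flipped, or
one of the fields has an irreducible odd part and a larger degree than the other one, or an irreducible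
odd part and a Galois closure that is not contained in that of the other one. -/
def IndependentFields (K K' : Type) [Field K] [NumberField K] [Field K'] [NumberField K'] : Prop :=
  Flipped K K' ∨ Dominates K K' ∨ Dominates K' K

/-- The field `K` contains (by an embedding in the CM field of the factor) a power of the Frobenius
endomorphism of the factor `i` of `Z`. -/
def IsFrobeniusField (Z : RedAV p ν) (i : Z.X.I) (K : Type) [Field K] : Prop :=
  ∃ (θ : K →+* (Z.X.factor i).E) (x : K) (s : ℕ), 0 < s ∧ θ x = Z.π i ^ s

/-- The factors `i` and `k` are independent: one of them is supersingular, or powers of their Frobenius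
endomorphisms belong to independent CM fields. -/
def Independent (Z : RedAV p ν) (i k : Z.X.I) : Prop :=
  IsSupersingular Z i ∨ IsSupersingular Z k ∨
    ∃ (K K' : Type) (_ : Field K) (_ : NumberField K) (_ : IsCMField K) (_ : Field K')
      (_ : NumberField K') (_ : IsCMField K'), IsFrobeniusField Z i K ∧ IsFrobeniusField Z k K' ∧
      IndependentFields K K'

/-- A power of the Frobenius endomorphism of the factor `i` belongs to a CM field with irreducible
odd part. -/
def HasIrreducibleField (Z : RedAV p ν) (i : Z.X.I) : Prop :=
  ∃ (K : Type) (_ : Field K) (_ : NumberField K) (_ : IsCMField K), IsFrobeniusField Z i K ∧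
    HasIrreducibleOddPart K

/-- The factors of `Z` are divided into blocks (`b i` is the block of the factor `i`), factors in
different blocks are independent, and each block is small or consists of one factor with an irreducible
odd part. -/
def InBlocks (Z : RedAV p ν) : Prop :=
  ∃ (J : Type) (b : Z.X.I → J), (∀ i k, b i ≠ b k → Independent Z i k) ∧
    ∀ c : J, IsSmallBlock Z {i | b i = c} ∨ ∃ i, {k | b k = c} = {i} ∧ HasIrreducibleField Z i

/-- The abelian varieties of dimension at most five, and the products of powers of the factors of an
abelian variety in independent blocks and of a supersingular abelian variety. -/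
def IsCovered (Y : RedAV p ν) : Prop :=
  finrank ℚ Y.X.H1 ≤ 10 ∨ ∃ Z : RedAV p ν, InBlocks Z ∧ IsPowersOf Z Y

end Pool.Agent.V5helper90.TB
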