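import Mathlib
import Pool.Agent.V5helper90.TB.Flip

/-!
# CM fields of twice odd prime degree without imaginary quadratic subfields
-/

set_option autoImplicit false

namespace Pool.Agent.V5helper90.TB

open NumberField Module Finset Polynomial Pool.Agent.H204R3.CM Pool.Agent.TH170.CM
  Pool.Agent.TH170.MF

section lin

/-- Vectors annihilated by the sum of the powers of an operator, of prime order, generate large
spaces. -/
theorem linearIndependent_pow {V : Type*} [AddCommGroup V] [Module ℚ V] (T : Module.End ℚ V) {g : ℕ}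
    (hg : g.Prime) {f : V} (hf : f ≠ 0) (hN : ∑ i ∈ range g, (T ^ i) f = 0) :
    LinearIndependent ℚ fun k : Fin (g - 1) => (T ^ (k : ℕ)) f := by
  classical
  rw [Fintype.linearIndependent_iff]
  intro a ha
  let P : ℚ[X] := ∑ k : Fin (g - 1), C (a k) * X ^ (k : ℕ)
  have hP : aeval T P f = 0 := by
    rw [← ha]
    simp only [P, map_sum, map_mul, aeval_C, map_pow, aeval_X, LinearMap.sum_apply]
    rfl
  have hΦ : aeval T (cyclotomic g ℚ) f = 0 := by
    have : Fact g.Prime := ⟨hg⟩
    rw [cyclotomic_prime ℚ g]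
    simp only [map_sum, map_pow, aeval_X, LinearMap.sum_apply]
    exact hN
  have hcoef : ∀ k : Fin (g - 1), P.coeff (k : ℕ) = a k := by
    intro k
    simp only [P, finset_sum_coeff, coeff_C_mul, coeff_X_pow]
    rw [sum_eq_single k]
    · simp
    · intro b _ hb
      rw [if_neg (fun h => hb (Fin.ext h.symm)), mul_zero]
    · intro h
      exact absurd (mem_univ _) h
  by_cases hP0 : P = 0
  · intro k
    rw [← hcoef, hP0, coeff_zero]
  · exfalso
    have hdeg : P.natDegree < (cyclotomic g ℚ).natDegree := by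
      rw [natDegree_cyclotomic, Nat.totient_prime hg]
      have h1 := hg.two_le
      refine lt_of_le_of_lt (natDegree_sum_le_of_forall_le (n := g - 2) univ _ ?_) (by omega)
      intro k _
      refine (natDegree_C_mul_X_pow_le _ _).trans ?_
      have := k.2
      omega
    have hirr := cyclotomic.irreducible_rat hg.pos
    have hcop : IsCoprime (cyclotomic g ℚ) P := by
      rw [hirr.coprime_iff_not_dvd]
      intro hd
      exact absurd (natDegree_le_of_dvd hd hP0) (not_le.2 hdeg)
    obtain ⟨u, v, huv⟩ := hcop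
    apply hf
    have h1 := congrArg (fun Q : ℚ[X] => aeval T Q f) huv
    simp only [map_add, map_mul, map_one, LinearMap.add_apply, Module.End.mul_apply,
      Module.End.one_apply] at h1
    rw [hΦ, hP, map_zero, map_zero, add_zero] at h1
    exact h1.symm

end lin

section prime

variable {K : Type} [Field K] [NumberField K] [IsCMField K]

theorem exists_tau {g : ℕ} (hg : g.Prime) (hgK : finrank ℚ K = 2 * g) (h2 : g ≠ 2) :
    ∃ τ : Gal K, τ ^ g = 1 ∧ ∀ φ : K →+* ℂ, τ • φ ≠ φ := by
  classical
  have hfact : Fact g.Prime := ⟨hg⟩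
  have hcard : Fintype.card (K →+* ℂ) = 2 * g := by rw [Embeddings.card, hgK]
  have hdvd : g ∣ Fintype.card (Gal K) := by
    obtain ⟨φ₀⟩ : Nonempty (K →+* ℂ) := inferInstance
    have h1 := MulAction.card_orbit_mul_card_stabilizer_eq_card_group (Gal K) φ₀
    have h3 : Fintype.card (MulAction.orbit (Gal K) φ₀) = 2 * g := by
      rw [← hcard]
      refine Fintype.card_congr ((Equiv.setCongr (MulAction.orbit_eq_univ (Gal K) φ₀)).trans
        (Equiv.Set.univ _))
    rw [h3] at h1
    exact ⟨2 * Fintype.card (MulAction.stabilizer (Gal K) φ₀), by rw [← h1]; ring⟩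
  obtain ⟨τ, hτ⟩ := exists_prime_orderOf_dvd_card g hdvd
  have hτg : τ ^ g = 1 := by rw [← hτ]; exact pow_orderOf_eq_one τ
  refine ⟨τ, hτg, fun φ₁ hφ₁ => ?_⟩
  -- the fixed points
  let X : Type := {φ : K →+* ℂ // τ • φ = φ}
  have hcX : ∀ φ : K →+* ℂ, τ • φ = φ → τ • cj φ = cj φ := by
    intro φ h
    obtain ⟨σ, hσ⟩ := gal_smul K τ
    rw [hσ] at h ⊢
    have := mv_cj σ φ
    unfold mv at this
    rw [this, h]
  let c : X → X := fun x => ⟨cj x.1, hcX x.1 x.2⟩
  have hcc : ∀ x, c (c x) = x := fun x => Subtype.ext (cj_cj x.1)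
  have hcne : ∀ x, c x ≠ x := fun x h => cj_ne x.1 (congrArg Subtype.val h)
  obtain ⟨T, hT⟩ := exists_transversal hcc hcne
  have hX2 : Fintype.card X = 2 * T.card := card_transversal hcc hT
  have hmod : Fintype.card (K →+* ℂ) ≡ Fintype.card X [MOD g] := by
    let F0 : Function.End (K →+* ℂ) := fun φ => τ • φ
    have h3 : ∀ n : ℕ, F0 ^ n = fun φ : K →+* ℂ => τ ^ n • φ := by
      intro n
      induction n with
      | zero =>
        funext φ
        show φ = (τ ^ 0) • φ
        rw [pow_zero, one_smul]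
      | succ n ih =>
        rw [pow_succ, ih]
        funext φ
        show τ ^ n • (τ • φ) = τ ^ (n + 1) • φ
        rw [pow_succ, mul_smul]
    have h1 := Equiv.Perm.card_fixedPoints_modEq (p := g) (n := 1) (f := F0) (by
      rw [h3, pow_one, hτg]
      funext φ
      exact one_smul _ φ)
    exact h1
  rw [hcard] at hmod
  have hgX : g ∣ Fintype.card X := by
    have h1 : 2 * g ≡ 0 [MOD g] := (Nat.modEq_zero_iff_dvd).2 (Dvd.intro_left 2 rfl)
    exact (Nat.modEq_zero_iff_dvd).1 (hmod.symm.trans h1)
  have hXpos : 0 < Fintype.card X := Fintype.card_pos_iff.2 ⟨⟨φ₁, hφ₁⟩⟩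
  have hgT : g ∣ T.card := by
    rw [hX2] at hgX
    rcases (Nat.Prime.dvd_mul hg).1 hgX with h | h
    · exact absurd ((Nat.prime_dvd_prime_iff_eq hg Nat.prime_two).1 h) h2
    · exact h
  have hX : Fintype.card X = Fintype.card (K →+* ℂ) := by
    have h1 : Fintype.card X ≤ Fintype.card (K →+* ℂ) :=
      Fintype.card_le_of_injective _ Subtype.val_injective
    have h3 := Nat.le_of_dvd (by omega) hgT
    omega
  have hbij : Function.Bijective (Subtype.val : X → (K →+* ℂ)) :=
    (Fintype.bijective_iff_injective_and_card _).2 ⟨Subtype.val_injective, hX⟩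
  have hτ1 : τ = 1 := by
    apply Subtype.ext
    apply Equiv.ext
    intro φ
    obtain ⟨x, rfl⟩ := hbij.2 φ
    exact x.2
  rw [hτ1, orderOf_one] at hτ
  exact hg.one_lt.ne hτ

/-- The stable spaces of odd functions have dimension at most one or at least `g - 1`. -/
theorem finrank_stable {g : ℕ} (hg : g.Prime) (hgK : finrank ℚ K = 2 * g) (h2 : g ≠ 2)
    (S : Submodule ℚ ((K →+* ℂ) → ℚ)) (hst : IsStable S) (hodd : IsOddSpace S) :
    finrank ℚ S ≤ 1 ∨ g - 1 ≤ finrank ℚ S := by
  classical
  obtain ⟨τ, hτg, hτ⟩ := exists_tau hg hgK h2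
  have hcard : Fintype.card (K →+* ℂ) = 2 * g := by rw [Embeddings.card, hgK]
  let T : Module.End ℚ ((K →+* ℂ) → ℚ) :=
    { toFun := fun f φ => f (τ • φ)
      map_add' := fun _ _ => rfl
      map_smul' := fun _ _ => rfl }
  have hTk : ∀ (k : ℕ) (f : (K →+* ℂ) → ℚ) φ, (T ^ k) f φ = f (τ ^ k • φ) := by
    intro k
    induction k with
    | zero =>
      intro f φ
      rw [pow_zero, pow_zero, one_smul]
      rfl
    | succ k ih =>
      intro f φ
      rw [pow_succ, Module.End.mul_apply, ih]
      show f (τ • τ ^ k • φ) = _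
      rw [← mul_smul, ← pow_succ']
  have hTS : ∀ (k : ℕ), ∀ f ∈ S, (T ^ k) f ∈ S := by
    intro k f hf
    obtain ⟨σ, hσ⟩ := gal_smul K (τ ^ k)
    have h1 : (T ^ k) f = fun φ => f ((σ : ℂ →+* ℂ).comp φ) := by
      funext φ
      rw [hTk, hσ]
    rw [h1]
    exact hst σ f hf
  by_cases hex : ∃ f ∈ S, f ≠ 0 ∧ ∑ i ∈ range g, (T ^ i) f = 0
  · right
    obtain ⟨f, hfS, hf0, hN⟩ := hex
    have h1 := linearIndependent_pow T hg hf0 hN
    have h3 : LinearIndependent ℚ fun k : Fin (g - 1) => (⟨(T ^ (k : ℕ)) f, hTS k f hfS⟩ : S) := by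
      apply LinearIndependent.of_comp S.subtype
      exact h1
    have h4 := h3.fintype_card_le_finrank
    rwa [Fintype.card_fin] at h4
  · left
    push Not at hex
    obtain ⟨φ₀⟩ : Nonempty (K →+* ℂ) := inferInstance
    -- evaluation of the sum at one embedding
    let ev : S →ₗ[ℚ] ℚ :=
      { toFun := fun f => ∑ i ∈ range g, f.1 (τ ^ i • φ₀)
        map_add' := fun f h => by
          simp only [Submodule.coe_add, Pi.add_apply, sum_add_distrib]
        map_smul' := fun c f => by
          simp only [Submodule.coe_smul, Pi.smul_apply, smul_eq_mul, mul_sum, RingHom.id_apply] }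
    have hinj : Function.Injective ev := by
      rw [← LinearMap.ker_eq_bot, LinearMap.ker_eq_bot']
      rintro ⟨f, hf⟩ h1
      by_contra hne
      have hf0 : f ≠ 0 := fun h => hne (Subtype.ext h)
      apply hex f hf hf0
      -- the function `N f` vanishes
      set F : (K →+* ℂ) → ℚ := ∑ i ∈ range g, (T ^ i) f with hF
      have hFv : ∀ φ, F φ = ∑ i ∈ range g, f (τ ^ i • φ) := by
        intro φ
        rw [hF, Finset.sum_apply]
        exact sum_congr rfl fun i _ => hTk i f φ
      have hFS : F ∈ S := Submodule.sum_mem _ fun i _ => hTS i f hf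
      have hF0 : F φ₀ = 0 := by
        rw [hFv]
        exact h1
      have hFτ : ∀ φ, F (τ • φ) = F φ := by
        intro φ
        rw [hFv, hFv]
        have h3 : ∀ i, f (τ ^ i • τ • φ) = f (τ ^ (i + 1) • φ) := by
          intro i
          rw [← mul_smul, ← pow_succ]
        rw [sum_congr rfl fun i _ => h3 i]
        have h4 := Finset.sum_range_succ (fun i => f (τ ^ i • φ)) g
        have h5 := Finset.sum_range_succ' (fun i => f (τ ^ i • φ)) g
        rw [hτg, one_smul] at h4
        rw [pow_zero, one_smul] at h5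
        rw [h4] at h5
        linarith
      have hFτk : ∀ (k : ℕ) φ, F (τ ^ k • φ) = F φ := by
        intro k
        induction k with
        | zero => intro φ; rw [pow_zero, one_smul]
        | succ k ih =>
          intro φ
          rw [pow_succ', mul_smul, hFτ, ih]
      -- the embeddings `τ ^ k φ₀` and their conjugates
      let e : Fin g ⊕ Fin g → (K →+* ℂ) :=
        Sum.elim (fun k => τ ^ (k : ℕ) • φ₀) (fun k => τ ^ (k : ℕ) • cj φ₀)
      have hper : ∀ (φ : K →+* ℂ) (m : ℕ), τ ^ m • φ = φ → g ∣ m := by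
        intro φ m hm
        by_contra hnd
        have hcop : Nat.Coprime m g := ((Nat.Prime.coprime_iff_not_dvd hg).2 hnd).symm
        apply hτ φ
        obtain ⟨a, -, ha⟩ := Nat.exists_mul_mod_eq_one_of_coprime hcop hg.one_lt
        have h3 : τ ^ (m * a) = τ := by
          conv_lhs => rw [← Nat.mod_add_div (m * a) g, ha, pow_add, pow_mul, hτg, one_pow,
            mul_one, pow_one]
        have h4 : (τ ^ m) ∈ MulAction.stabilizer (Gal K) φ := hm
        have h5 : (τ ^ m) ^ a ∈ MulAction.stabilizer (Gal K) φ := Subgroup.pow_mem _ h4 a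
        rw [← pow_mul, h3] at h5
        exact h5
      have hsame : ∀ (φ : K →+* ℂ) (k l : ℕ), k ≤ l → l < g → τ ^ k • φ = τ ^ l • φ → k = l := by
        intro φ k l hkl hl h
        have h3 : τ ^ (l - k) • φ = φ := by
          have h4 : τ ^ l = τ ^ k * τ ^ (l - k) := by rw [← pow_add, Nat.add_sub_cancel' hkl]
          rw [h4, mul_smul] at h
          exact (smul_left_cancel _ h).symm
        have h5 := hper φ _ h3
        have h6 := Nat.eq_zero_of_dvd_of_lt h5 (by omega)
        omega
      have hcomm : ∀ (m : ℕ) (φ : K →+* ℂ), τ ^ m • cj φ = cj (τ ^ m • φ) := by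
        intro m φ
        obtain ⟨σ, hσ⟩ := gal_smul K (τ ^ m)
        rw [hσ, hσ]
        exact mv_cj σ φ
      have hmix : ∀ k l : ℕ, l < g → τ ^ k • φ₀ ≠ τ ^ l • cj φ₀ := by
        intro k l hl h
        have h3 : τ ^ (k + (g - l)) • φ₀ = cj φ₀ := by
          rw [add_comm, pow_add, mul_smul, h, ← mul_smul, ← pow_add, Nat.sub_add_cancel hl.le, hτg,
            one_smul]
        have h4 : τ ^ ((k + (g - l)) + (k + (g - l))) • φ₀ = φ₀ := by
          rw [pow_add, mul_smul, h3, hcomm, h3, cj_cj]
        have h5 := hper φ₀ _ h4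
        rw [← two_mul] at h5
        rcases (Nat.Prime.dvd_mul hg).1 h5 with h6 | ⟨m, h6⟩
        · exact h2 ((Nat.prime_dvd_prime_iff_eq hg Nat.prime_two).1 h6)
        · rw [h6, pow_mul, hτg, one_pow, one_smul] at h3
          exact cj_ne φ₀ h3.symm
      have hinj : Function.Injective e := by
        rintro (k | k) (l | l) h
        · congr 1
          apply Fin.ext
          have h3 : τ ^ (k : ℕ) • φ₀ = τ ^ (l : ℕ) • φ₀ := h
          rcases le_total (k : ℕ) (l : ℕ) with h4 | h4
          · exact hsame φ₀ k l h4 l.2 h3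
          · exact (hsame φ₀ l k h4 k.2 h3.symm).symm
        · exact absurd h (hmix k l l.2)
        · exact absurd h.symm (hmix l k k.2)
        · congr 1
          apply Fin.ext
          have h3 : τ ^ (k : ℕ) • cj φ₀ = τ ^ (l : ℕ) • cj φ₀ := h
          rcases le_total (k : ℕ) (l : ℕ) with h4 | h4
          · exact hsame _ k l h4 l.2 h3
          · exact (hsame _ l k h4 k.2 h3.symm).symm
      have hbij : Function.Bijective e := by
        rw [Fintype.bijective_iff_injective_and_card]
        refine ⟨hinj, ?_⟩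
        rw [Fintype.card_sum, Fintype.card_fin, hcard]
        ring
      funext φ
      obtain ⟨x, rfl⟩ := hbij.2 φ
      rcases x with k | k
      · show F (τ ^ (k : ℕ) • φ₀) = 0
        rw [hFτk, hF0]
      · show F (τ ^ (k : ℕ) • cj φ₀) = 0
        rw [hFτk]
        have := hodd F hFS φ₀
        rw [this, hF0, neg_zero]
    have h3 := LinearMap.finrank_le_finrank_of_injective hinj
    rwa [finrank_self] at h3

/-- **CM fields of degree `2 g`, `g` an odd prime, without imaginary quadratic subfields have an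
irreducible odd part.** -/
theorem oddIrreducible_of_prime {g : ℕ} (hg : g.Prime) (hgK : finrank ℚ K = 2 * g) (h2 : g ≠ 2)
    (hK : ∀ F : IntermediateField ℚ K, finrank ℚ F = 2 → IsTotallyReal F) : OddIrreducible K := by
  classical
  -- there are no stable lines
  have hline : ∀ S : Submodule ℚ ((K →+* ℂ) → ℚ), IsStable S → IsOddSpace S →
      finrank ℚ S ≠ 1 := by
    intro S hst hodd h1
    have hS : S ∈ minimalSpaces K := by
      refine ⟨?_, hst, hodd, ?_⟩
      · rintro rfl
        rw [finrank_bot] at h1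
        exact absurd h1 (by norm_num)
      · intro S' _ hle
        by_cases h3 : S' = ⊥
        · exact Or.inl h3
        · right
          apply Submodule.eq_of_le_of_finrank_le hle
          rw [h1]
          exact Nat.one_le_iff_ne_zero.2 (fun h4 => h3 (Submodule.finrank_eq_zero.1 h4))
    obtain ⟨ε, hε, rfl⟩ := exists_signChar hS h1
    obtain ⟨L, _, _, j, hj⟩ := exists_galois (fun _ : Unit => K)
    obtain ⟨ψ₀⟩ : Nonempty (K →+* ℂ) := inferInstance
    obtain ⟨φ₀, -⟩ := hj () ψ₀
    exact not_real_fldE j hε φ₀ (hK _ (finrank_fldE j hε φ₀))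
  intro S hst hodd hS f hf
  have hoddle : S ≤ oddSpace K := fun u hu => hodd u hu
  have hdim : finrank ℚ (oddSpace K) = g := by
    have := finrank_oddSpace (K := K)
    omega
  by_contra hfS
  have hlt : finrank ℚ S < g := by
    rw [← hdim]
    exact Submodule.finrank_lt_finrank_of_lt (lt_of_le_of_ne hoddle (fun h => hfS (by
      rw [h]; exact hf)))
  -- the orthogonal space
  let S' : Submodule ℚ ((K →+* ℂ) → ℚ) :=
    { carrier := {u | (∀ φ, u (cj φ) = - u φ) ∧ ∀ v ∈ S, ∑ φ, u φ * v φ = 0}
      zero_mem' := ⟨fun φ => by simp, fun v _ => by simp⟩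
      add_mem' := by
        rintro u w ⟨h3, h4⟩ ⟨h5, h6⟩
        refine ⟨fun φ => ?_, fun v hv => ?_⟩
        · rw [Pi.add_apply, Pi.add_apply, h3, h5]
          ring
        · simp only [Pi.add_apply, add_mul, sum_add_distrib]
          rw [h4 v hv, h6 v hv, add_zero]
      smul_mem' := by
        rintro a u ⟨h3, h4⟩
        refine ⟨fun φ => ?_, fun v hv => ?_⟩
        · rw [Pi.smul_apply, Pi.smul_apply, h3, smul_eq_mul, smul_eq_mul]
          ring
        · simp only [Pi.smul_apply, smul_eq_mul, mul_assoc]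
          rw [← mul_sum, h4 v hv, mul_zero] }
  have hst' : IsStable S' := by
    rintro σ u ⟨h3, h4⟩
    refine ⟨fun φ => ?_, fun v hv => ?_⟩
    · show u (mv σ (cj φ)) = - u (mv σ φ)
      rw [mv_cj, h3]
    · have h5 := h4 _ (hst σ.symm v hv)
      refine Eq.trans ?_ ((Equiv.sum_comp (permOf K σ)
        (fun φ => u φ * v (mv σ.symm φ))).trans h5)
      refine sum_congr rfl fun φ _ => ?_
      show u (mv σ φ) * v φ = u (mv σ φ) * v (mv σ.symm (mv σ φ))
      rw [symm_mv]
  have hodd' : IsOddSpace S' := fun u hu φ => hu.1 φ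
  have hle' : S' ≤ oddSpace K := fun u hu => hu.1
  have hdisj : Disjoint S S' := by
    rw [Submodule.disjoint_def]
    rintro u hu ⟨-, hu'⟩
    have h3 := hu' u hu
    rw [sum_eq_zero_iff_of_nonneg (fun φ _ => mul_self_nonneg _)] at h3
    funext φ
    exact mul_self_eq_zero.1 (h3 φ (mem_univ _))
  have hS' : S' ≠ ⊥ := by
    let R : oddSpace K →ₗ[ℚ] Module.Dual ℚ S :=
      LinearMap.mk₂ ℚ (fun (u : oddSpace K) (v : S) => ∑ φ, u.1 φ * v.1 φ)
        (fun u w v => by
          simp only [Submodule.coe_add, Pi.add_apply, add_mul, sum_add_distrib])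
        (fun a u v => by
          simp only [Submodule.coe_smul, Pi.smul_apply, smul_eq_mul, mul_assoc, mul_sum])
        (fun u v w => by
          simp only [Submodule.coe_add, Pi.add_apply, mul_add, sum_add_distrib])
        (fun a u v => by
          simp only [Submodule.coe_smul, Pi.smul_apply, smul_eq_mul, mul_sum]
          exact sum_congr rfl fun φ _ => by ring)
    have h3 : LinearMap.ker R ≠ ⊥ := by
      intro h4
      have h5 := LinearMap.finrank_le_finrank_of_injective (LinearMap.ker_eq_bot.1 h4)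
      rw [Subspace.dual_finrank_eq, hdim] at h5
      omega
    obtain ⟨u, hu, hu0⟩ := (Submodule.ne_bot_iff _).1 h3
    rw [Submodule.ne_bot_iff]
    refine ⟨u.1, ⟨u.2, fun v hv => ?_⟩, fun h => hu0 (Subtype.ext h)⟩
    have h4 := LinearMap.congr_fun (LinearMap.mem_ker.1 hu) ⟨v, hv⟩
    exact h4
  have hsum : finrank ℚ S + finrank ℚ S' ≤ g := by
    rw [← hdim, ← Submodule.finrank_sup_add_finrank_inf_eq, hdisj.eq_bot, finrank_bot, add_zero]
    exact Submodule.finrank_mono (sup_le hoddle hle')
  have hpos : ∀ W : Submodule ℚ ((K →+* ℂ) → ℚ), W ≠ ⊥ → finrank ℚ W ≠ 0 := fun W h h3 =>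
    h (Submodule.finrank_eq_zero.1 h3)
  have h3 := finrank_stable hg hgK h2 S hst hodd
  have h4 := finrank_stable hg hgK h2 S' hst' hodd'
  have h5 := hline S hst hodd
  have h6 := hline S' hst' hodd'
  have h7 := hpos S hS
  have h8 := hpos S' hS'
  have h9 := hg.two_le
  omega

end prime

end Pool.Agent.V5helper90.TB
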