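import Mathlib
import Pool.Agent.V5helper90.TB.Blocks
import Pool.Agent.V5helper90.TB.Prime
import Pool.Agent.V5helper90.TB.Defs
import Pool.Agent.TH117.GN.Wt
import Pool.Agent.Y137.SF.Main
import Pool.Agent.Y137.SF.Defs2

/-!
# Abelian varieties in independent blocks have elementary relations
-/

set_option autoImplicit false

namespace Pool.Agent.V5helper90.TB

open NumberField Finset Module Pool.Agent.H204R3.CM Pool.Agent.H977R3.CM Pool.Agent.TH170.CM
  Pool.Agent.TH170.MF Pool.Agent.W495.TA Pool.Agent.TH117 Pool.Agent.TH170.FW Pool.Agent.TH170.GS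
  Pool.Agent.Y137.SF Pool.Agent.W495.FM Pool.Agent.TH117.GN

variable {p : ℕ} [Fact p.Prime] {ν : PadicAlgCl p ≃+* ℂ}

theorem dev_of_supersingular {Z : RedAV p ν} {w : BL.Emb Z}
    (h : Pool.Agent.V5helper90.TB.IsSupersingular Z w.1) (σ : ℂ ≃+* ℂ) : dev Z σ w = 0 := by
  classical
  have h1 := sum_dev_of_isRel (isRel_single w h) σ
  rw [sum_eq_single w] at h1
  · rwa [Pi.single_eq_same, Nat.cast_one, one_mul] at h1
  · intro v _ hv
    rw [Pi.single_eq_of_ne hv, Nat.cast_zero, zero_mul]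
  · intro h
    exact absurd (mem_univ _) h

theorem oddIrreducible_of {K : Type} [Field K] [NumberField K] [IsCMField K]
    (h : HasIrreducibleOddPart K) : OddIrreducible K := by
  rcases h with h | ⟨g, h1, h2, h3, h4⟩
  · exact h
  · exact oddIrreducible_of_prime h1 h3 h2 h4

theorem flipped_of_dominates {K K' : Type} [Field K] [NumberField K] [IsCMField K] [Field K']
    [NumberField K'] [IsCMField K'] (h : Dominates K K') : Flipped K K' := by
  obtain ⟨h1, h2 | h2⟩ := h
  · exact flipped_of_finrank (oddIrreducible_of h1) h2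
  · exact flipped_of_closure (oddIrreducible_of h1) h2

theorem flipped_of_independent {K K' : Type} [Field K] [NumberField K] [IsCMField K] [Field K']
    [NumberField K'] [IsCMField K'] (h : IndependentFields K K') : Flipped K K' := by
  rcases h with h | h | h
  · exact h
  · exact flipped_of_dominates h
  · exact (flipped_of_dominates h).symm

theorem unrelated_of_independent {Z : RedAV p ν} {w w' : BL.Emb Z}
    (h : Independent Z w.1 w'.1) : Unrelated Z w w' := by
  rcases h with h | h | ⟨K, K', _, _, _, _, _, _, ⟨θ, x, s, hs, hx⟩, ⟨θ', x', s', hs', hx'⟩, hf⟩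
  · exact Or.inl (dev_of_supersingular h)
  · exact Or.inr (Or.inl (dev_of_supersingular h))
  · refine Or.inr (Or.inr ?_)
    obtain ⟨σ, h1, h2⟩ := flipped_of_independent hf (w.2.comp θ) (w'.2.comp θ')
    refine ⟨σ, s, s', hs, hs', ?_, ?_⟩
    · have h3 := h1 x
      have h4 : (w.2.comp θ) x = BL.eig Z w ^ s := by
        show w.2 (θ x) = _
        rw [hx, map_pow]
        rfl
      rwa [h4] at h3
    · have h3 := h2 x'
      have h4 : (w'.2.comp θ') x' = BL.eig Z w' ^ s' := by
        show w'.2 (θ' x') = _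
        rw [hx', map_pow]
        rfl
      rwa [h4] at h3

/-- **One factor with an irreducible odd part.** -/
theorem mem_of_irreducible {Z : RedAV p ν} {i : Z.X.I} (hi : HasIrreducibleField Z i)
    {e : BL.Emb Z → ℕ} (he : BL.IsRel Z e) (hsupp : ∀ w, e w ≠ 0 → w.1 = i) :
    (fun w => (e w : ℤ)) ∈ ElemS Z := by
  classical
  obtain ⟨K, _, _, _, ⟨θ, x, s, hs, hx⟩, hK'⟩ := hi
  have hK := oddIrreducible_of hK'
  have hs0 : (s : ℝ) ≠ 0 := Nat.cast_ne_zero.2 hs.ne'
  -- the embedding of `K` in the factors with index `i`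
  have hθ' : ∀ k, k = i → ∃ θ' : K →+* (Z.X.factor k).E, θ' x = Z.π k ^ s := by
    intro k hk
    subst hk
    exact ⟨θ, hx⟩
  choose θ' hθ' using hθ'
  let G : (K →+* ℂ) → ℝ := fun ψ => (2 * (- Real.logb p ‖ν.symm (ψ x)‖) - s * Z.a) / s
  let r : BL.Emb Z → Option (K →+* ℂ) := fun w =>
    if h : w.1 = i then some (w.2.comp (θ' w.1 h)) else none
  have hr1 : ∀ w, w.1 ≠ i → r w = none := fun w h => dif_neg h
  have hr2 : ∀ w (h : w.1 = i), r w = some (w.2.comp (θ' w.1 h)) := fun w h => dif_pos h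
  have hG : ∀ w ψ, r w = some ψ → ∀ σ : ℂ ≃+* ℂ, dev Z σ w = G (mv σ ψ) := by
    intro w ψ hw σ
    by_cases h : w.1 = i
    · rw [hr2 w h] at hw
      rw [← Option.some.inj hw]
      have h1 : (mv σ (w.2.comp (θ' w.1 h))) x = σ (BL.eig Z w) ^ s := by
        show σ (w.2 (θ' w.1 h x)) = _
        rw [hθ', map_pow, map_pow]
        rfl
      simp only [G]
      rw [h1, map_pow, norm_pow, Real.logb_pow, eq_div_iff hs0]
      unfold dev
      ring
    · rw [hr1 w h] at hw
      exact absurd hw (by simp)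
  have hrc : ∀ w ψ, r w = some ψ → r (conjE w) = some (cj ψ) := by
    intro w ψ hw
    by_cases h : w.1 = i
    · rw [hr2 w h] at hw
      rw [← Option.some.inj hw, hr2 (conjE w) h]
      rfl
    · rw [hr1 w h] at hw
      exact absurd hw (by simp)
  have hdc : ∀ w (σ : ℂ ≃+* ℂ), dev Z σ (conjE w) = - dev Z σ w := by
    intro w σ
    refine dev_conj one_pos ?_
    rw [pow_one, pow_one]
    rfl
  have hGc : ∀ w ψ, r w = some ψ → ∀ σ : ℂ ≃+* ℂ, G (mv σ (cj ψ)) = - G (mv σ ψ) := by
    intro w ψ hw σ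
    rw [← hG _ _ (hrc w ψ hw), ← hG _ _ hw, hdc]
  -- the exponents
  let c : (K →+* ℂ) → ℚ := fun ψ => ∑ w, (e w : ℚ) * ((if r w = some ψ then 1 else 0) -
    (if r w = some (cj ψ) then 1 else 0))
  have hc : ∀ ψ, c (cj ψ) = - c ψ := by
    intro ψ
    simp only [c, cj_cj]
    rw [← sum_neg_distrib]
    exact sum_congr rfl fun w _ => by ring
  let W : Submodule ℚ ((K →+* ℂ) → ℚ) :=
    { carrier := {f | (∀ ψ, f (cj ψ) = - f ψ) ∧
        ∀ σ : ℂ ≃+* ℂ, ∑ ψ, ((f ψ : ℚ) : ℝ) * G (mv σ ψ) = 0}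
      zero_mem' := ⟨fun ψ => by simp, fun σ => by simp⟩
      add_mem' := by
        rintro f h ⟨h1, h2⟩ ⟨h3, h4⟩
        refine ⟨fun ψ => ?_, fun σ => ?_⟩
        · rw [Pi.add_apply, Pi.add_apply, h1, h3]
          ring
        · simp only [Pi.add_apply, Rat.cast_add, add_mul, sum_add_distrib]
          rw [h2, h4, add_zero]
      smul_mem' := by
        rintro a f ⟨h1, h2⟩
        refine ⟨fun ψ => ?_, fun σ => ?_⟩
        · rw [Pi.smul_apply, Pi.smul_apply, h1, smul_eq_mul, smul_eq_mul]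
          ring
        · simp only [Pi.smul_apply, smul_eq_mul, Rat.cast_mul, mul_assoc]
          rw [← mul_sum, h2, mul_zero] }
  have hWst : IsStable W := by
    rintro τ f ⟨h1, h2⟩
    refine ⟨fun ψ => ?_, fun σ => ?_⟩
    · show f (mv τ (cj ψ)) = - f (mv τ ψ)
      rw [mv_cj, h1]
    · refine Eq.trans ?_ ((Equiv.sum_comp (permOf K τ)
        (fun ψ => ((f ψ : ℚ) : ℝ) * G (mv (τ.symm.trans σ) ψ))).trans (h2 (τ.symm.trans σ)))
      refine sum_congr rfl fun ψ _ => ?_
      show ((f (mv τ ψ) : ℚ) : ℝ) * G (mv σ ψ) =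
        ((f (mv τ ψ) : ℚ) : ℝ) * G (mv (τ.symm.trans σ) (mv τ ψ))
      rw [← mv_mv, symm_mv]
  have hcW : c ∈ W := by
    refine ⟨hc, fun σ => ?_⟩
    have h1 : ∑ ψ, ((c ψ : ℚ) : ℝ) * G (mv σ ψ) = 2 * ∑ w, (e w : ℝ) * dev Z σ w := by
      simp only [c]
      push_cast
      simp only [sum_mul]
      rw [sum_comm, mul_sum]
      refine sum_congr rfl fun w _ => ?_
      by_cases hw0 : e w = 0
      · simp [hw0]
      have hwi := hsupp w hw0
      have hrw := hr2 w hwi
      set ψ₀ := w.2.comp (θ' w.1 hwi) with hψ₀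
      have h3 : ∀ ψ : K →+* ℂ, (e w : ℝ) * (((if r w = some ψ then (1 : ℚ) else 0 : ℚ) : ℝ) -
          ((if r w = some (cj ψ) then (1 : ℚ) else 0 : ℚ) : ℝ)) * G (mv σ ψ) =
          (if ψ₀ = ψ then (e w : ℝ) * G (mv σ ψ) else 0) -
            (if cj ψ₀ = ψ then (e w : ℝ) * G (mv σ ψ) else 0) := by
        intro ψ
        rw [hrw]
        have h4 : (ψ₀ = cj ψ) ↔ (cj ψ₀ = ψ) :=
          ⟨fun h => by rw [h, cj_cj], fun h => by rw [← h, cj_cj]⟩
        simp only [Option.some_inj, h4]
        split_ifs <;> push_cast <;> ring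
      rw [sum_congr rfl fun ψ _ => h3 ψ, sum_sub_distrib, sum_ite_eq univ ψ₀,
        sum_ite_eq univ (cj ψ₀), if_pos (mem_univ _), if_pos (mem_univ _), hGc w ψ₀ hrw,
        hG w ψ₀ hrw σ]
      ring
    rw [h1, sum_dev_of_isRel he, mul_zero]
  -- restriction to the weights of the factor
  let R : (BL.Emb Z → ℤ) →+ (BL.Emb Z → ℤ) :=
    { toFun := fun d w => if w.1 = i then d w else 0
      map_zero' := by
        funext w
        show (if w.1 = i then (0 : ℤ) else 0) = 0
        rw [ite_self]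
      map_add' := fun d d' => by
        funext w
        show (if w.1 = i then d w + d' w else 0) = (if w.1 = i then d w else 0) +
          (if w.1 = i then d' w else 0)
        split_ifs
        · rfl
        · rw [add_zero] }
  have hR : ∀ d w, R d w = if w.1 = i then d w else 0 := fun d w => rfl
  have hRe : R (fun w => (e w : ℤ)) = fun w => (e w : ℤ) := by
    funext w
    rw [hR]
    split_ifs with h
    · rfl
    · by_cases h0 : e w = 0
      · rw [h0]
        rfl
      · exact absurd (hsupp w h0) h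
  have hRs : ∀ w, w.1 = i → R (Pi.single w 1) = Pi.single w 1 := by
    intro w hw
    funext v
    rw [hR, Pi.single_apply]
    by_cases h : v = w
    · rw [if_pos h, h, if_pos hw]
    · rw [if_neg h, ite_self]
  have hRs0 : ∀ w, w.1 ≠ i → R (Pi.single w 1) = 0 := by
    intro w hw
    funext v
    rw [hR, Pi.single_apply]
    by_cases h : v = w
    · rw [h, if_neg hw]
      rfl
    · rw [if_neg h, ite_self]
      rfl
  by_cases hc0 : c = 0
  · -- symmetric exponents
    have hmem := mem_of_symm ((ElemS Z).comap R) r cj cj_cj cj_ne ?_ ?_ ?_ (fun w => (e w : ℤ)) ?_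
    · rw [AddSubgroup.mem_comap, hRe] at hmem
      exact hmem
    · intro w hw
      rw [AddSubgroup.mem_comap]
      by_cases h : w.1 = i
      · rw [hr2 w h] at hw
        exact absurd hw (by simp)
      · rw [hRs0 w h]
        exact AddSubgroup.zero_mem _
    · intro w w' ψ hw hw'
      have h1 : w.1 = i := by
        by_contra h
        rw [hr1 w h] at hw
        exact absurd hw (by simp)
      have h2 : w'.1 = i := by
        by_contra h
        rw [hr1 w' h] at hw'
        exact absurd hw' (by simp)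
      rw [AddSubgroup.mem_comap, map_add, hRs w h1, hRs w' h2]
      refine pair_memS w w' fun σ => ?_
      rw [hG w ψ hw, hG w' (cj ψ) hw', hGc w ψ hw]
      ring
    · intro w ψ hw
      exact ⟨conjE w, hrc w ψ hw⟩
    · intro ψ
      have h1 := congrFun hc0 ψ
      simp only [c, mul_sub, mul_ite, mul_one, mul_zero, sum_sub_distrib, Pi.zero_apply] at h1
      have h2 := sub_eq_zero.1 h1
      have h3 : ((∑ w, (if r w = some ψ then (e w : ℤ) else 0) : ℤ) : ℚ) =
          ((∑ w, (if r w = some (cj ψ) then (e w : ℤ) else 0) : ℤ) : ℚ) := by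
        push_cast
        exact h2
      exact_mod_cast h3
  · -- all slopes are equal
    have hW : W ≠ ⊥ := by
      rw [Submodule.ne_bot_iff]
      exact ⟨c, hcW, hc0⟩
    have hWodd : IsOddSpace W := fun f hf ψ => hf.1 ψ
    have hall := hK W hWst hWodd hW
    have hdev0 : ∀ w, w.1 = i → ∀ σ, dev Z σ w = 0 := by
      intro w hw σ
      have hrw := hr2 w hw
      set ψ₀ := w.2.comp (θ' w.1 hw) with hψ₀
      have h1 := (hall (dl ψ₀) (fun ψ => by
        unfold dl
        have e1 : (cj ψ = ψ₀) ↔ (ψ = cj ψ₀) :=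
          ⟨fun h => by rw [← h, cj_cj], fun h => by rw [h, cj_cj]⟩
        have e2 : (cj ψ = cj ψ₀) ↔ (ψ = ψ₀) :=
          ⟨fun h => by rw [← cj_cj ψ, h, cj_cj], fun h => by rw [h]⟩
        show (if cj ψ = ψ₀ then (1:ℚ) else 0) - (if cj ψ = cj ψ₀ then 1 else 0) =
          - ((if ψ = ψ₀ then (1:ℚ) else 0) - (if ψ = cj ψ₀ then 1 else 0))
        simp only [e1, e2]
        ring)).2 σ
      unfold dl at h1
      have h2 : ∀ ψ : K →+* ℂ, (((if ψ = ψ₀ then (1:ℚ) else 0) - (if ψ = cj ψ₀ then 1 else 0) : ℚ) : ℝ)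
          * G (mv σ ψ) = (if ψ = ψ₀ then G (mv σ ψ) else 0) -
            (if ψ = cj ψ₀ then G (mv σ ψ) else 0) := by
        intro ψ
        push_cast
        split_ifs <;> ring
      rw [sum_congr rfl fun ψ _ => h2 ψ, sum_sub_distrib, sum_ite_eq' univ ψ₀,
        sum_ite_eq' univ (cj ψ₀), if_pos (mem_univ _), if_pos (mem_univ _), hGc w ψ₀ hrw] at h1
      rw [hG w ψ₀ hrw]
      linarith
    have h1 : (fun w => (e w : ℤ)) = ∑ w, (e w : ℤ) • (Pi.single w 1 : BL.Emb Z → ℤ) := by
      funext v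
      rw [Finset.sum_apply, sum_eq_single v]
      · rw [Pi.smul_apply, Pi.single_eq_same, smul_eq_mul, mul_one]
      · intro w _ hw
        rw [Pi.smul_apply, Pi.single_eq_of_ne (Ne.symm hw), smul_zero]
      · intro h
        exact absurd (mem_univ _) h
    rw [h1]
    refine AddSubgroup.sum_mem _ fun w _ => ?_
    by_cases h2 : e w = 0
    · rw [h2, Nat.cast_zero, zero_smul]
      exact AddSubgroup.zero_mem _
    · exact AddSubgroup.zsmul_mem _ (single_memS w (hdev0 w (hsupp w h2))) _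

/-- Relations between eigenvalues with vanishing slopes. -/
theorem mem_of_dev {Z : RedAV p ν} {e : BL.Emb Z → ℕ}
    (h : ∀ w, e w ≠ 0 → ∀ σ, dev Z σ w = 0) : (fun w => (e w : ℤ)) ∈ ElemS Z := by
  classical
  have h1 : (fun w => (e w : ℤ)) = ∑ w, (e w : ℤ) • (Pi.single w 1 : BL.Emb Z → ℤ) := by
    funext v
    rw [Finset.sum_apply, sum_eq_single v]
    · rw [Pi.smul_apply, Pi.single_eq_same, smul_eq_mul, mul_one]
    · intro w _ hw
      rw [Pi.smul_apply, Pi.single_eq_of_ne (Ne.symm hw), smul_zero]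
    · intro h
      exact absurd (mem_univ _) h
  rw [h1]
  refine AddSubgroup.sum_mem _ fun w _ => ?_
  by_cases h2 : e w = 0
  · rw [h2, Nat.cast_zero, zero_smul]
    exact AddSubgroup.zero_mem _
  · exact AddSubgroup.zsmul_mem _ (single_memS w (h w h2)) _

theorem isGoodSetS_of {Z : RedAV p ν} {S : Set Z.X.I} (h : IsSmallBlock Z S) : IsGoodSetS Z S := by
  rcases h with ⟨h1, h2⟩ | ⟨h1, h2⟩
  · refine Or.inl ⟨h1, fun i hi k hk h3 h4 h5 => ?_⟩
    by_cases hik : i = k
    · subst hik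
      exact Or.inr (Or.inr (Or.inr ⟨RingEquiv.refl _, 1, one_pos, rfl⟩))
    · exact Or.inl (h2 i hi k hk hik h3 h4 h5)
  · exact Or.inr ⟨h1, fun i hi k hk h3 => h2 i hi k hk ⟨h3.1, h3.2.1⟩⟩

/-- Relations can be divided into blocks. -/
theorem elementary_of_blocks {Z : RedAV p ν} {J : Type} (b : Z.X.I → J)
    (hind : ∀ i k, b i ≠ b k → Independent Z i k)
    (hb : ∀ (c : J) (e : BL.Emb Z → ℕ), BL.IsRel Z e → (∀ w, e w ≠ 0 → b w.1 = c) →
      (fun w => (e w : ℤ)) ∈ ElemS Z) : HasElementaryRelationsS Z := by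
  classical
  intro e he
  let ec : J → BL.Emb Z → ℕ := fun c w => if b w.1 = c then e w else 0
  have hec : ∀ c, BL.IsRel Z (ec c) := by
    intro c
    refine split he (fun w => b w.1 = c) ?_
    intro w w' hw hw'
    refine unrelated_of_independent (hind w.1 w'.1 ?_)
    rw [hw]
    exact fun h => hw' h.symm
  have hsupp : ∀ c w, ec c w ≠ 0 → b w.1 = c := by
    intro c w hw
    by_contra h
    exact hw (if_neg h)
  have h1 : (fun w => (e w : ℤ)) = ∑ c ∈ univ.image b, fun w => (ec c w : ℤ) := by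
    funext w
    rw [Finset.sum_apply]
    simp only [ec]
    rw [sum_eq_single (b w.1)]
    · rw [if_pos rfl]
    · intro c _ hc
      rw [if_neg (Ne.symm hc)]
      rfl
    · intro h
      exact absurd (mem_image_of_mem b (mem_univ w.1)) h
  rw [h1]
  exact AddSubgroup.sum_mem _ fun c _ => hb c (ec c) (hec c) (hsupp c)

/-- **Abelian varieties in independent blocks have elementary relations.** -/
theorem hasElementaryRelations {Z : RedAV p ν} (h : InBlocks Z) : HasElementaryRelationsS Z := by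
  obtain ⟨J, b, hind, hb⟩ := h
  refine elementary_of_blocks b hind fun c e he hsupp => ?_
  rcases hb c with h2 | ⟨i, h2, h3⟩
  · exact AddSubgroup.subset_closure ⟨e, he,
      Or.inr (Or.inl ⟨_, isGoodSetS_of h2, fun w hw => hsupp w hw⟩), fun _ => rfl⟩
  · refine mem_of_irreducible h3 he fun w hw => ?_
    have h4 : w.1 ∈ {k | b k = c} := hsupp w hw
    rw [h2] at h4
    exact h4

section tb

variable {Ω : Type} [Field Ω] [IsAlgClosed Ω] [CharZero Ω]

theorem IsChowS.isChow {Ω : Type} [Field Ω] [CharZero Ω] {Y : RedAV p ν} {C : Cycles Ω Y}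
    (h : IsChowS C) : IsChow C :=
  { h.toHasFrobenius, h.toHasDuality, h.toHasProducts with
    nilpotent := h.nilpotent
    algebraic := fun j f h1 h2 => h.algebraic j f
      (AlgS.of_alg (by simp) (by simp) h1) h2 }

theorem jannsen_of {P : RedAV p ν → Prop}
    (hP : ∀ Y : RedAV p ν, P Y → ∀ (Ω : Type) [Field Ω] [IsAlgClosed Ω] [CharZero Ω] (m : ℕ)
      (f : (TM Ω Y) [⋀^Fin (2 * m)]→ₗ[Ω] Ω), IsTateClass Ω Y 1 m f →
        AlgS Ω {4, 6} Y (Fin (2 * m)) f) : JannsenHolds p ν P := by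
  intro Ω _ _ _ V T hT
  have htb : ∀ X : V, Generated T (IsAbelianOf P T) X → TB T X := by
    intro X hX
    refine tb_generated hT (fun X hX => ?_) hX
    obtain ⟨Y, C, D, g, h1, hC, hD, hX⟩ := hX
    exact tb_abelian hT hC.isChow (fun j f hf => hC.algebraic j f (hP Y h1 Ω j f hf) hf) hD hX
  refine ⟨fun X hX => ⟨htb X hX, fun Z U d h1 h2 i j hj => reg_opened hT h1 (htb X hX) h2 hj i⟩,
    fun hW X hX i => onto_spread hT hW (fun X h1 i => ((htb X h1).iso hT i).1) hX i⟩

end tb

theorem jannsen_covered (p : ℕ) [Fact p.Prime] (ν : PadicAlgCl p ≃+* ℂ) :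
    JannsenHolds p ν IsCovered := by
  refine jannsen_of fun Y hY Ω _ _ _ m f hf => ?_
  rcases hY with hY | ⟨Z, hZ, hY⟩
  · exact fiveS Ω Y hY 1 m one_pos f hf
  · exact elementaryS Z (hasElementaryRelations hZ) Ω Y hY 1 m one_pos f hf

end Pool.Agent.V5helper90.TB
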