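import Mathlib
import Pool.Agent.V5helper90.TB.FlipDefs
import Pool.Agent.Y137.SF.Defs
import Pool.Agent.W547.DR.Lim

/-!
# Abelian varieties over finite fields in independent blocks, and systems of classes with the properties
# of the classes of algebraic cycles: definitions
-/

set_option autoImplicit false

namespace Pool.Agent.V5helper90.TB.Pole

open NumberField Module Pool.Agent.W495.TA Pool.Agent.W547.DR Pool.Agent.Y137.SF

variable {p : ℕ} [Fact p.Prime] {ν : PadicAlgCl p ≃+* ℂ}

/-- The odd part of `K` is irreducible (by definition, or since the degree of `K` is twice an odd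
prime number and `K` contains no imaginary quadratic field). -/
def HasIrreducibleOddPart (K : Type) [Field K] [NumberField K] : Prop :=
  OddIrreducible K ∨ ∃ g : ℕ, g.Prime ∧ g ≠ 2 ∧ finrank ℚ K = 2 * g ∧
    ∀ F : IntermediateField ℚ K, finrank ℚ F = 2 → IsTotallyReal F

/-- The odd part of `K` is irreducible, and the degree of `K'` is smaller than the degree of `K` or the
Galois closure of `K'` does not contain `K` (with its Galois closure). -/
def Dominates (K K' : Type) [Field K] [NumberField K] [Field K'] [NumberField K'] : Prop :=
  HasIrreducibleOddPart K ∧ (finrank ℚ K' < finrank ℚ K ∨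
    ¬ IntermediateField.normalClosure ℚ K ℂ ≤ IntermediateField.normalClosure ℚ K' ℂ)

/-- The CM fields `K` and `K'` are independent: all pairs of complex embeddings are flipped, or
one of the fields has an irreducible odd part and a larger degree than the other one, or an irreducible
odd part and a Galois closure that is not contained in that of the other one. -/
def IndependentFields (K K' : Type) [Field K] [NumberField K] [Field K'] [NumberField K'] : Prop :=
  Flipped K K' ∨ Dominates K K' ∨ Dominates K' K

/-- The factor `i` of `Z` is supersingular: a power of its Frobenius endomorphism is a power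
of `p`. -/
def IsSupersingular (Z : RedAV p ν) (i : Z.X.I) : Prop :=
  ∃ s : ℕ, 0 < s ∧ (Z.π i) ^ (2 * s) = ((p : (Z.X.factor i).E) ^ Z.a) ^ s

/-- The field `K` contains (by an embedding in the CM field of the factor) a power of the Frobenius
endomorphism of the factor `i` of `Z`. -/
def IsFrobeniusField (Z : RedAV p ν) (i : Z.X.I) (K : Type) [Field K] : Prop :=
  ∃ (θ : K →+* (Z.X.factor i).E) (x : K) (s : ℕ), 0 < s ∧ θ x = Z.π i ^ s

/-- The factors `i` and `k` are independent: one of them is supersingular, or powers of their Frobenius
endomorphisms belong to independent CM fields. -/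
def Independent (Z : RedAV p ν) (i k : Z.X.I) : Prop :=
  IsSupersingular Z i ∨ IsSupersingular Z k ∨
    ∃ (K K' : Type) (_ : Field K) (_ : NumberField K) (_ : IsCMField K) (_ : Field K')
      (_ : NumberField K') (_ : IsCMField K'), IsFrobeniusField Z i K ∧ IsFrobeniusField Z k K' ∧
      IndependentFields K K'

/-- A power of the Frobenius endomorphism of the factor `i` belongs to a CM field with irreducible
odd part. -/
def HasIrreducibleField (Z : RedAV p ν) (i : Z.X.I) : Prop :=
  ∃ (K : Type) (_ : Field K) (_ : NumberField K) (_ : IsCMField K), IsFrobeniusField Z i K ∧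
    HasIrreducibleOddPart K

open Classical in
/-- The block `S` of factors is small:

* all factors in `S` have dimension at most three, and two different factors of dimension three in `S`
  whose CM fields have the same Galois closure have Galois CM fields; or
* the sum of the dimensions of the factors in `S` is at most five, and they are not an elliptic curve
  and a factor of dimension four. -/
def IsSmallBlock (Z : RedAV p ν) (S : Set Z.X.I) : Prop :=
  ((∀ i ∈ S, finrank ℚ (Z.X.factor i).E ≤ 6) ∧
    ∀ i ∈ S, ∀ k ∈ S, i ≠ k → finrank ℚ (Z.X.factor i).E = 6 → finrank ℚ (Z.X.factor k).E = 6 →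
      IntermediateField.normalClosure ℚ (Z.X.factor i).E ℂ =
        IntermediateField.normalClosure ℚ (Z.X.factor k).E ℂ → IsGalois ℚ (Z.X.factor i).E) ∨
  ((∑ i, if i ∈ S then finrank ℚ (Z.X.factor i).E else 0) ≤ 10 ∧
    ∀ i ∈ S, ∀ k ∈ S, ¬ (finrank ℚ (Z.X.factor i).E = 2 ∧ finrank ℚ (Z.X.factor k).E = 8))

/-- The Frobenius eigenvalues `φ (π i)` of `Z` belong to pairs `w` of (the index of) a factor `i` and a
complex embedding `φ` of its CM field. The exponents `e w` are those of a multiplicative relation: the
product of the eigenvalues with the exponents `e w` is a square root of the power of `q = p ^ a` with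
the exponent `∑ e w`, up to a root of unity. -/
def IsRelation (Z : RedAV p ν) (e : (Σ i, (Z.X.factor i).E →+* ℂ) → ℕ) : Prop :=
  ∃ s : ℕ, 0 < s ∧ (∏ w, w.2 (Z.π w.1) ^ e w) ^ (2 * s) = ((p : ℂ) ^ Z.a) ^ (s * ∑ w, e w)

/-- All relations between the Frobenius eigenvalues of the factors in `S` are generated by relations
between at most two eigenvalues of `Z` (with multiplicities). -/
def HasPairRelations (Z : RedAV p ν) (S : Set Z.X.I) : Prop :=
  ∀ e : (Σ i, (Z.X.factor i).E →+* ℂ) → ℕ, IsRelation Z e → (∀ w, e w ≠ 0 → w.1 ∈ S) →
    (fun w => (e w : ℤ)) ∈ AddSubgroup.closure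
      {d : (Σ i, (Z.X.factor i).E →+* ℂ) → ℤ |
        ∃ n, IsRelation Z n ∧ ∑ w, n w ≤ 2 ∧ ∀ w, d w = n w}

/-- The factors of `Z` are divided into blocks (`b i` is the block of the factor `i`), factors in
different blocks are independent, and each block is small, or consists of one factor with an
irreducible odd part, or consists of factors such that all relations between their Frobenius
eigenvalues are generated by relations between at most two eigenvalues. -/
def InBlocks (Z : RedAV p ν) : Prop :=
  ∃ (J : Type) (b : Z.X.I → J), (∀ i k, b i ≠ b k → Independent Z i k) ∧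
    ∀ c : J, IsSmallBlock Z {i | b i = c} ∨ (∃ i, {k | b k = c} = {i} ∧ HasIrreducibleField Z i) ∨
      HasPairRelations Z {i | b i = c}

/-- `Y` is, over an algebraic closure of the finite field, isogenous to a product of powers of factors
of `Z` and of a supersingular abelian variety. -/
def IsPowersOf (Z Y : RedAV p ν) : Prop :=
  ∀ i : Y.X.I, IsSupersingular Y i ∨
    ∃ (k : Z.X.I) (ι : (Z.X.factor k).E →+* (Y.X.factor i).E) (s t : ℕ), 0 < s ∧ 0 < t ∧
      Y.a * s = Z.a * t ∧ (Y.π i) ^ s = ι ((Z.π k) ^ t)

/-- The abelian varieties of dimension at most five, and the products of powers of the factors of an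
abelian variety in independent blocks and of a supersingular abelian variety. -/
def IsCovered (Y : RedAV p ν) : Prop :=
  finrank ℚ Y.X.H1 ≤ 10 ∨ ∃ Z : RedAV p ν, InBlocks Z ∧ IsPowersOf Z Y

/-- The rational subspaces `S n` of the cohomology of degree `2 n` have the following properties of the
spaces of the rational linear combinations of the classes of algebraic cycles of codimension `n` on `Y`
over the extension of degree `s` of the ground field: they consist of Tate classes; the Tate classes in
the system `AlgS`, generated by Tate classes of degree two, split Weil classes and reductions of Hodge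
classes on products of elliptic curves and abelian surfaces, are combinations of elements of `S n` with
complex coefficients (theorems of Tate, Markman and Ramón Marí); intersection numbers are
rational. -/
structure IsCycleSystem {Y : RedAV p ν} (s : ℕ) (S : Sys ℂ Y) : Prop where
  tate : ∀ n, ∀ z ∈ S n, IsTate s z
  algebraic : ∀ n (z : Coh ℂ Y n), AlgS ℂ {4, 6} Y (Fin (2 * n)) z → IsTate s z →
    z ∈ Submodule.span ℂ (S n : Set (Coh ℂ Y n))
  rational : RationalNumbers S

end Pool.Agent.V5helper90.TB.Pole
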