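import Mathlib
import Pool.Agent.V5helper90.TB.Cover
import Pool.Agent.V5helper90.TB.PoleDefs
import Pool.Agent.R299.ANA.Main

/-!
# Poles of L-functions of abelian varieties over finite fields in independent blocks
-/

set_option autoImplicit false

namespace Pool.Agent.V5helper90.TB.Pole

open NumberField Finset Module Pool.Agent.H204R3.CM Pool.Agent.W547.KB Pool.Agent.W495.TA
  Pool.Agent.TH117 Pool.Agent.TH117.F5 Pool.Agent.W547.LD Pool.Agent.W547.HR Pool.Agent.Y137.SF Pool.Agent.Y137.GN Pool.Agent.W547.DR Pool.Agent.R299.ANA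
  Pool.Agent.V5helper90.TB

variable {p : ℕ} [Fact p.Prime] {ν : PadicAlgCl p ≃+* ℂ}

/-- The analytic form of the Tate conjecture follows from the description of the Tate classes. -/
theorem analytic_of {Y : RedAV p ν} (s : ℕ) (hs : 0 < s)
    (hY : ∀ (m : ℕ) (f : (TM ℂ Y) [⋀^Fin (2 * m)]→ₗ[ℂ] ℂ), IsTateClass ℂ Y s m f →
      AlgS ℂ {4, 6} Y (Fin (2 * m)) f) :
    (∃ S : Sys ℂ Y, IsCycleSystem s S) ∧
      ∀ S : Sys ℂ Y, IsCycleSystem s S → ∀ n : ℕ, AnalyticFormula s S n := by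
  obtain ⟨L, _, _, j, hj⟩ := exists_big Y
  refine ⟨?_, fun S hS n => ?_⟩
  · obtain ⟨S, hS⟩ := exists_systemS j hj s
    exact ⟨S, hS.tate, hS.algS, hS.rational⟩
  have hF : IsFullSystem ℂ Y s S :=
    ⟨hS.tate, fun n z hz => hS.algebraic n z (hY n z hz) hz, hS.rational⟩
  refine ⟨fun z hz hn => zero_of_trivial j hj hF hz hn, ?_⟩
  have h3 := phi_limit hj s hs n
  have h4 : Submodule.span ℂ (S n : Set (Coh ℂ Y n)) = Tate ℂ Y s n := by
    ext z
    exact span_iff hF z
  have h6 := finrank_span j hj hF n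
  have h5 : finrank ℂ (Submodule.span ℂ (S n : Set (Coh ℂ Y n))) = finrank ℂ (Tate ℂ Y s n) := by
    exact congrArg (fun T : Submodule ℂ ((TM ℂ Y) [⋀^Fin (2 * n)]→ₗ[ℂ] ℂ) => finrank ℂ T) h4
  have h7 : finrank ℚ (S n) = finrank ℂ (Tate ℂ Y s n) := h6.trans h5
  rw [h7]
  exact h3

theorem irreducible_of {Z : RedAV p ν} {i : Z.X.I} (h : HasIrreducibleField Z i) :
    TB.HasIrreducibleField Z i := h

/-- **Abelian varieties in independent blocks have elementary relations.** -/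
theorem hasElementaryRelations {Z : RedAV p ν} (h : InBlocks Z) : HasElementaryRelationsS Z := by
  obtain ⟨J, b, hind, hb⟩ := h
  refine elementary_of_blocks b hind fun c e he hsupp => ?_
  rcases hb c with h2 | ⟨i, h2, h3⟩ | h2
  · exact AddSubgroup.subset_closure ⟨e, he,
      Or.inr (Or.inl ⟨_, isGoodSetS_of h2, fun w hw => hsupp w hw⟩), fun _ => rfl⟩
  · refine mem_of_irreducible h3 he fun w hw => ?_
    have h4 : w.1 ∈ {k | b k = c} := hsupp w hw
    rw [h2] at h4
    exact h4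
  · refine AddSubgroup.closure_mono ?_ (h2 e he hsupp)
    rintro d ⟨n, h3, h4, h5⟩
    exact ⟨n, h3, Or.inl h4, h5⟩

theorem analytic_covered {Y : RedAV p ν} (hY : IsCovered Y) (s : ℕ) (hs : 0 < s) :
    (∃ S : Sys ℂ Y, IsCycleSystem s S) ∧
      ∀ S : Sys ℂ Y, IsCycleSystem s S → ∀ n : ℕ, AnalyticFormula s S n := by
  refine analytic_of s hs fun m f hf => ?_
  rcases hY with hY | ⟨Z, hZ, hY⟩
  · exact fiveS ℂ Y hY s m hs f hf
  · exact elementaryS Z (hasElementaryRelations hZ) ℂ Y hY s m hs f hf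

end Pool.Agent.V5helper90.TB.Pole
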